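import Pool.Agent.V11187.MG.Fre
import Pool.Agent.Y983.PW.T
import Pool.Agent.Y483.PI.Tr
import Pool.Agent.Y477.IW.KRing
import Pool.Agent.Y483.LInj

/-!
Rational L-groups and K-groups of group rings with arbitrary coefficients: transfers along pairs of
cocycles.
-/

namespace Pool.Agent.V11187.MG

open CategoryTheory Pool.Agent.Y483 Pool.Agent.Y477.IW Pool.Agent.Y75.MQ Pool.Agent.Y110.KW

section LRings

/-- A rational functor as an integral one. -/
noncomputable def toI (E : LFunctor.{0}) : IFunctor.{0} where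
  obj R _ _ := E.obj R
  grp R _ _ := E.grp R
  map f := (E.map f).toAddMonoidHom
  map_id R _ _ x := E.map_id R x
  map_comp g f x := E.map_comp g f x
  map_add f g h h1 h2 x := E.map_add f g h h1 h2 x
  map_conj f g u h1 h2 h3 x := E.map_conj f g u h1 h2 h3 x
  corner_inj S _ _ A a := E.corner_inj S A a

variable (E : LFunctor.{0}) (R : Type) [Ring R] [StarRing R]

/-- The functor `G ↦ E(R[G])`. -/
noncomputable def lgF : GrpCat.{0} ⥤ ModuleCat.{0} ℚ where
  obj G := ModuleCat.of ℚ (E.obj (MonoidAlgebra R G))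
  map f := ModuleCat.ofHom (E.map (grMap R f.hom))
  map_id G := by
    apply ModuleCat.hom_ext
    apply LinearMap.ext
    intro x
    exact (toI E).gmap_id R x
  map_comp f g := by
    apply ModuleCat.hom_ext
    apply LinearMap.ext
    intro x
    exact (toI E).gmap_comp R g.hom f.hom x

theorem hasPT_lgF : PW.HasPT (lgF E R) := by
  classical
  intro G A K _ _ κ
  by_cases hA : Nonempty A
  · obtain ⟨a₀⟩ := hA
    obtain ⟨L, hL⟩ := LinearMap.exists_leftInverse_of_injective
      (E.map (corner (MonoidAlgebra R K) A a₀))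
      (LinearMap.ker_eq_bot.mpr (E.corner_inj _ A a₀))
    refine ⟨L ∘ₗ (E.map (pHom R κ) - E.map (pHom R (PI.pD κ))), ?_⟩
    intro G₀ _ j Y lc ld hY1 hY2 x
    have h := PI.pre (toI E) R κ a₀ j Y lc ld hY1 hY2 x
    have h2 : (E.map (pHom R κ) - E.map (pHom R (PI.pD κ))) (E.map (grMap R j) x) =
        E.map (corner (MonoidAlgebra R K) A a₀)
          (∑ a ∈ Y, (E.map (grMap R (lc a)) x - E.map (grMap R (ld a)) x)) := h
    change L ((E.map (pHom R κ) - E.map (pHom R (PI.pD κ))) (E.map (grMap R j) x)) = _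
    rw [h2]
    exact DFunLike.congr_fun hL _
  · refine ⟨0, ?_⟩
    intro G₀ _ j Y lc ld hY1 hY2 x
    have : Y = ∅ := by
      rw [Finset.eq_empty_iff_forall_notMem]
      intro a _
      exact hA ⟨a⟩
    rw [this, Finset.sum_empty]
    rfl

end LRings

section Transport

variable {E E' : GrpCat.{0} ⥤ ModuleCat.{0} ℚ}

/-- Transfers pass to subfunctors. -/
theorem hasPT_of_inj (D : E ⟶ E') (hD : ∀ G : GrpCat.{0}, Function.Injective (D.app G).hom)
    (hE : PW.HasPT E') : PW.HasPT E := by
  intro G A K _ _ κ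
  obtain ⟨Φ, hΦ⟩ := hE G A K κ
  obtain ⟨L, hL⟩ := LinearMap.exists_leftInverse_of_injective (D.app (GrpCat.of K)).hom
    (LinearMap.ker_eq_bot.mpr (hD _))
  have hnat : ∀ {G₀ K₀ : Type} [Group G₀] [Group K₀] (f : G₀ →* K₀) (x : E.obj (GrpCat.of G₀)),
      (D.app (GrpCat.of K₀)).hom (emap E f x) = emap E' f ((D.app (GrpCat.of G₀)).hom x) := by
    intro G₀ K₀ _ _ f x
    exact congrArg (fun g => g.hom x) (D.naturality (GrpCat.ofHom f))
  refine ⟨L ∘ₗ Φ ∘ₗ (D.app (GrpCat.of G)).hom, ?_⟩
  intro G₀ _ j Y lc ld hY1 hY2 x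
  rw [LinearMap.comp_apply, LinearMap.comp_apply, hnat, hΦ G₀ j Y lc ld hY1 hY2, map_sum]
  apply Finset.sum_congr rfl
  intro a _
  rw [← hnat, ← hnat, ← map_sub]
  exact DFunLike.congr_fun hL _

end Transport

section Rationalization

open TensorProduct

/-- The rationalization of an integral functor. -/
noncomputable def ratI (E : IFunctor.{0}) : LFunctor.{0} where
  obj R _ _ := ℚ ⊗[ℤ] E.obj R
  grp R _ _ := inferInstance
  mod R _ _ := inferInstance
  map f := LinearMap.baseChange ℚ (E.map f).toIntLinearMap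
  map_id R _ _ x := by
    have h : (E.map (NonUnitalStarRingHom.id R)).toIntLinearMap = LinearMap.id := by
      apply LinearMap.ext
      intro x
      exact E.map_id R x
    rw [h, LinearMap.baseChange_id]
    rfl
  map_comp g f x := by
    have h : (E.map (g.comp f)).toIntLinearMap =
        (E.map g).toIntLinearMap ∘ₗ (E.map f).toIntLinearMap := by
      apply LinearMap.ext
      intro x
      exact E.map_comp g f x
    rw [h, LinearMap.baseChange_comp]
    rfl
  map_add f g h h1 h2 x := by
    have h3 : (E.map h).toIntLinearMap = (E.map f).toIntLinearMap + (E.map g).toIntLinearMap := by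
      apply LinearMap.ext
      intro x
      exact E.map_add f g h h1 h2 x
    rw [h3, LinearMap.baseChange_add]
    rfl
  map_conj f g u h1 h2 h3 x := by
    have h : (E.map g).toIntLinearMap = (E.map f).toIntLinearMap := by
      apply LinearMap.ext
      intro x
      exact E.map_conj f g u h1 h2 h3 x
    rw [h]
  corner_inj S _ _ A a := by
    have h := Module.Flat.lTensor_preserves_injective_linearMap (M := ℚ)
      (E.map (corner S A a)).toIntLinearMap (E.corner_inj S A a)
    exact h

/-- The functor `G ↦ ℚ ⊗ K₁(R[G])`. -/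
noncomputable def kQ (R : Type) [Ring R] : GrpCat.{0} ⥤ ModuleCat.{0} ℚ where
  obj G := ModuleCat.of ℚ (ℚ ⊗[ℤ] KG R G)
  map f := ModuleCat.ofHom (LinearMap.baseChange ℚ (kf R f.hom).toIntLinearMap)
  map_id G := by
    have h : (kf R (MonoidHom.id G)).toIntLinearMap = LinearMap.id := by
      apply LinearMap.ext
      intro x
      exact kf_id x
    apply ModuleCat.hom_ext
    change LinearMap.baseChange ℚ (kf R (MonoidHom.id G)).toIntLinearMap = _
    rw [h, LinearMap.baseChange_id]
    rfl
  map_comp f g := by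
    have h : (kf R (g.hom.comp f.hom)).toIntLinearMap =
        (kf R g.hom).toIntLinearMap ∘ₗ (kf R f.hom).toIntLinearMap := by
      apply LinearMap.ext
      intro x
      exact (kf_comp g.hom f.hom x).symm
    apply ModuleCat.hom_ext
    change LinearMap.baseChange ℚ (kf R (g.hom.comp f.hom)).toIntLinearMap = _
    rw [h, LinearMap.baseChange_comp]
    rfl

/-- The comparison with `(R × Rᵒᵖ)[G]`. -/
noncomputable def dblQ (R : Type) [Ring R] : kQ R ⟶ lgF (ratI kFun) (Sw R) where
  app G := ModuleCat.ofHom (LinearMap.baseChange ℚ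
    (km (swI R) (MonoidHom.id G)).toIntLinearMap)
  naturality G K f := by
    apply ModuleCat.hom_ext
    change (LinearMap.baseChange ℚ (km (swI R) (MonoidHom.id K)).toIntLinearMap) ∘ₗ
      (LinearMap.baseChange ℚ (kf R f.hom).toIntLinearMap) =
      (LinearMap.baseChange ℚ (kFun.map (grMap (Sw R) f.hom)).toIntLinearMap) ∘ₗ
      (LinearMap.baseChange ℚ (km (swI R) (MonoidHom.id G)).toIntLinearMap)
    rw [← LinearMap.baseChange_comp, ← LinearMap.baseChange_comp]
    congr 1
    apply LinearMap.ext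
    intro x
    exact km_nat f.hom x

theorem dblQ_inj (R : Type) [Ring R] (G : GrpCat.{0}) :
    Function.Injective ((dblQ R).app G).hom :=
  Module.Flat.lTensor_preserves_injective_linearMap (M := ℚ)
    (km (swI R) (MonoidHom.id G)).toIntLinearMap (km_inj G)

theorem hasPT_kQ (R : Type) [Ring R] : PW.HasPT (kQ R) :=
  hasPT_of_inj (dblQ R) (dblQ_inj R) (hasPT_lgF _ _)

end Rationalization

/-- The functor `G ↦ L₀(R[G]; ε) ⊗ ℚ`. -/
noncomputable abbrev lQ (R : Type) [Ring R] [StarRing R] (ε : ℤˣ) : GrpCat.{0} ⥤ ModuleCat.{0} ℚ :=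
  lgF (lFunctor ε) R

end Pool.Agent.V11187.MG
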