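import Pool.Agent.V11187.MG.Rat

/-!
The functor `G ↦ L₀(A[G]; ε) ⊗ ℚ` for a ring with involution `A`.
-/

namespace Pool.Agent.V11187.MG

open CategoryTheory Pool.Agent.Y483 Pool.Agent.Y477.IW Pool.Agent.Y75.MQ

variable (A : Type) [Ring A] [StarRing A] (ε : ℤˣ)

theorem lA_id (G : GrpCat.{0}) : ModuleCat.ofHom (LQ.map ε (grMap A (MonoidHom.id G))) =
    𝟙 (ModuleCat.of ℚ (LQ (MonoidAlgebra A G) ε)) :=
  (lgF (lFunctor ε) A).map_id G

theorem lA_comp {G K L : GrpCat.{0}} (f : G ⟶ K) (g : K ⟶ L) :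
    ModuleCat.ofHom (LQ.map ε (grMap A (g.hom.comp f.hom))) =
      ModuleCat.ofHom (LQ.map ε (grMap A f.hom)) ≫ ModuleCat.ofHom (LQ.map ε (grMap A g.hom)) :=
  (lgF (lFunctor ε) A).map_comp f g

/-- The functor `G ↦ L₀(A[G]; ε) ⊗ ℚ`. -/
noncomputable def lA : GrpCat.{0} ⥤ ModuleCat.{0} ℚ where
  obj G := ModuleCat.of ℚ (LQ (MonoidAlgebra A G) ε)
  map f := ModuleCat.ofHom (LQ.map ε (grMap A f.hom))
  map_id G := lA_id A ε G
  map_comp f g := lA_comp A ε f g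

theorem hasPT_lA : PW.HasPT (lA A ε) := hasPT_lgF (lFunctor ε) A

end Pool.Agent.V11187.MG
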