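import Pool.Agent.V11187.MG.Eq
import Pool.Agent.Y483.ThmH

/-!
The two complexes and the comparison map for the group of the pairs `(m, γ)` with
`∂ m = γ v₀ - v₀`, for a graph with an action of a group with finite stabilisers of the vertices
(adapted from the starting library, `Pool.Agent.Y483.Cplx`).
-/

namespace Pool.Agent.V11187.MG

open Finsupp Pool.Agent.Y483

/-- A group `G` over `Γ` with a crossed homomorphism to the `1`-chains of the graph, identifying
`G` with the set of pairs `(m, γ)` with `∂ m = γ v₀ - v₀`; the graph is connected. -/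
structure Mag {Γ V E : Type} [Group Γ] [MulAction Γ V] [MulAction Γ E] (Q : Edges V E) (v₀ : V)
    (G : Type) [Group G] where
  /-- The projection to `Γ`. -/
  γ : G →* Γ
  /-- The crossed homomorphism. -/
  c : G → (E →₀ ℤ)
  mul : ∀ g h, c (g * h) = c g + gE (γ g) (c h)
  del : ∀ g, Q.del (c g) = single (γ g • v₀) 1 - single v₀ 1
  inj : ∀ g h, γ g = γ h → c g = c h → g = h
  sur : ∀ (m : E →₀ ℤ) (y : Γ), Q.del m = single (y • v₀) 1 - single v₀ 1 → ∃ g, γ g = y ∧ c g = m
  gen : ∀ v : V, ∃ m, Q.del m = single v 1 - single v₀ 1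

section Right

variable {Γ V E : Type} [Group Γ] [MulAction Γ V] [MulAction Γ E] {Q : Edges V E} {v₀ : V}
  {G : Type} [Group G] (M : Mag (Γ := Γ) Q v₀ G)

/-- The action of `G` on `Γ`. -/
def Mag.σB : G →* Equiv.Perm Γ := (MulAction.toPermHom Γ Γ).comp M.γ

theorem Mag.σB_apply (g : G) (v : Γ) : M.σB g v = M.γ g * v := rfl

/-- The representation of `G` on `ℚ[Γ]`. -/
noncomputable abbrev Mag.repB : Representation ℚ G (Γ →₀ ℚ) := permRep M.σB

theorem dd_rB (q : ℕ) (g : Γ) (z : Bq Γ G (q + 1)) :
    dd M.repB q (rB Γ G (q + 1) g z) = rB Γ G q g (dd M.repB q z) := by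
  apply dd_mp (ρ := M.repB) (τ := M.repB) (MonoidHom.id G) (rightR g)
  intro h m
  have e : (rightR g) ∘ₗ (M.repB h) = (M.repB h) ∘ₗ (rightR g) := by
    apply lhom_ext
    intro v r
    rw [LinearMap.comp_apply, LinearMap.comp_apply, permRep_single, rightR_single, rightR_single,
      permRep_single, M.σB_apply, M.σB_apply, mul_assoc]
  exact DFunLike.congr_fun e m

end Right

section Left

variable {Γ V E : Type} [Group Γ] [MulAction Γ V] [MulAction Γ E]

/-- The action of `Γ` on the second complex. -/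
noncomputable def rB' (Γ V E : Type) [Group Γ] [MulAction Γ V] [MulAction Γ E] (n q : ℕ) :
    Representation ℚ Γ (T q (HH E) (MM V n)) where
  toFun g := gC n q g
  map_one' := by
    apply TI_ext
    intro x a r
    rw [gC, mp_single, gM_single]
    have e1 : gAug n (1 : Γ) a = a := by
      apply Subtype.ext
      change gV 1 a.1 = a.1
      apply int_ind (fun b => gV (1 : Γ) b) (fun b => b) (fun a b => by simp only [map_add])
        (fun a b => rfl)
      intro v
      simp only [gV_single, one_smul]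
    have e2 : (gH (1 : Γ) : HH E → HH E) ∘ x = x := by
      funext i
      change Multiplicative.ofAdd (gE (1 : Γ) (x i).toAdd) = x i
      have : gE (1 : Γ) (x i).toAdd = (x i).toAdd := by
        apply int_ind (fun b => gE (1 : Γ) b) (fun b => b) (fun a b => by simp only [map_add])
          (fun a b => rfl)
        intro v
        simp only [gE_single, one_smul]
      rw [this]; rfl
    rw [e1, e2]
    rfl
  map_mul' g h := by
    apply TI_ext
    intro x a r
    rw [Module.End.mul_apply, gC, gC, gC, mp_single, mp_single, mp_single, gM_single, gM_single,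
      gM_single]
    have e1 : gAug n (g * h) a = gAug n g (gAug n h a) := by
      apply Subtype.ext
      change gV (g * h) a.1 = gV g (gV h a.1)
      apply int_ind (fun b => gV (g * h) b) (fun b => gV g (gV h b))
        (fun a b => by simp only [map_add]) (fun a b => by simp only [map_add])
      intro v
      simp only [gV_single, mul_smul]
    have e2 : (gH (g * h) : HH E → HH E) ∘ x = gH g ∘ gH h ∘ x := by
      funext i
      change Multiplicative.ofAdd (gE (g * h) (x i).toAdd) =
        Multiplicative.ofAdd (gE g (gE h (x i).toAdd))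
      congr 1
      apply int_ind (fun b => gE (g * h) b) (fun b => gE g (gE h b))
        (fun a b => by simp only [map_add]) (fun a b => by simp only [map_add])
      intro v
      simp only [gE_single, mul_smul]
    rw [e1, e2]

open Classical in
/-- The elements of the group which move the chosen representative of the orbit to `a`. -/
noncomputable def movers {X : Type} [MulAction Γ X] (a : X) : Set Γ :=
  {g | g • (Quotient.out (s := MulAction.orbitRel Γ X) (Quotient.mk _ a)) = a}

theorem movers_nonempty {X : Type} [MulAction Γ X] (a : X) : (movers (Γ := Γ) a).Nonempty := by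
  have h := Quotient.exact (s := MulAction.orbitRel Γ X)
    (Quotient.out_eq (s := MulAction.orbitRel Γ X) (Quotient.mk _ a))
  obtain ⟨g, hg⟩ := (MulAction.orbitRel Γ X).symm h
  exact ⟨g, hg⟩

theorem movers_smul {X : Type} [MulAction Γ X] (y : Γ) (a : X) (g : Γ) :
    y * g ∈ movers (y • a) ↔ g ∈ movers (Γ := Γ) a := by
  have h : (Quotient.mk (MulAction.orbitRel Γ X) (y • a)) = Quotient.mk _ a :=
    Quotient.sound ⟨y, rfl⟩
  unfold movers
  rw [Set.mem_ofPred_eq, Set.mem_ofPred_eq, h, mul_smul, smul_left_cancel_iff]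

theorem movers_finite {X : Type} [MulAction Γ X] (a : X)
    (hf : (MulAction.stabilizer Γ a : Set Γ).Finite) : (movers (Γ := Γ) a).Finite := by
  obtain ⟨g₀, hg₀⟩ := movers_nonempty (Γ := Γ) a
  apply (hf.image fun g => g * g₀).subset
  intro g hg
  refine ⟨g * g₀⁻¹, ?_, by simp⟩
  rw [SetLike.mem_coe, MulAction.mem_stabilizer_iff]
  have h1 : g₀⁻¹ • a = Quotient.out (s := MulAction.orbitRel Γ X) (Quotient.mk _ a) := by
    rw [inv_smul_eq_iff]; exact hg₀.symm
  rw [mul_smul, h1]
  exact hg


theorem gAug_one (n : ℕ) (a : Aug V n) : gAug n (1 : Γ) a = a := by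
  apply Subtype.ext
  change gV 1 a.1 = a.1
  apply int_ind (fun b => gV (1 : Γ) b) (fun b => b) (fun a b => by simp only [map_add])
    (fun a b => rfl)
  intro v
  simp only [gV_single, one_smul]

theorem gAug_mul (n : ℕ) (g h : Γ) (a : Aug V n) : gAug n (g * h) a = gAug n g (gAug n h a) := by
  apply Subtype.ext
  change gV (g * h) a.1 = gV g (gV h a.1)
  apply int_ind (fun b => gV (g * h) b) (fun b => gV g (gV h b))
    (fun a b => by simp only [map_add]) (fun a b => by simp only [map_add])
  intro v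
  simp only [gV_single, mul_smul]

/-- The action on the `0`-chains of degree `n`. -/
noncomputable local instance augAct (n : ℕ) : MulAction Γ (Aug V n) where
  smul g a := gAug n g a
  one_smul a := gAug_one n a
  mul_smul g h a := gAug_mul n g h a

theorem aug_smul (n : ℕ) (g : Γ) (a : Aug V n) : g • a = gAug n g a := rfl

theorem gV_apply (g : Γ) (a : V →₀ ℤ) (v : V) : gV g a (g • v) = a v := by
  unfold gV
  rw [Finsupp.lmapDomain_apply, Finsupp.mapDomain_apply (MulAction.injective g)]

theorem stab_finite (hfin : ∀ v : V, (MulAction.stabilizer Γ v : Set Γ).Finite) (n : ℕ)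
    (hn : n ≠ 0) (a : Aug V n) : (MulAction.stabilizer Γ a : Set Γ).Finite := by
  have hne : a.1 ≠ 0 := by
    intro h
    have h1 := a.2
    rw [h, map_zero] at h1
    exact hn (by exact_mod_cast h1.symm)
  obtain ⟨v, hv⟩ := Finsupp.support_nonempty_iff.mpr hne
  have hsub : (MulAction.stabilizer Γ a : Set Γ) ⊆
      ⋃ u ∈ a.1.support, {g : Γ | g • v = u} := by
    intro g hg
    rw [SetLike.mem_coe, MulAction.mem_stabilizer_iff] at hg
    have h1 : gV g a.1 = a.1 := congrArg Subtype.val hg
    have h2 : a.1 (g • v) = a.1 v := by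
      conv_lhs => rw [← h1]
      exact gV_apply g a.1 v
    rw [Set.mem_iUnion₂]
    refine ⟨g • v, ?_, rfl⟩
    rw [Finsupp.mem_support_iff, h2]
    exact Finsupp.mem_support_iff.mp hv
  refine Set.Finite.subset ?_ hsub
  apply Set.Finite.biUnion (a.1.support.finite_toSet)
  intro u _
  by_cases h : ∃ g₀ : Γ, g₀ • v = u
  · obtain ⟨g₀, hg₀⟩ := h
    apply ((hfin v).image fun g => g₀ * g).subset
    intro g hg
    refine ⟨g₀⁻¹ * g, ?_, by simp⟩
    rw [SetLike.mem_coe, MulAction.mem_stabilizer_iff, mul_smul, inv_smul_eq_iff, hg₀]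
    exact hg
  · have : {g : Γ | g • v = u} = ∅ := by
      ext g
      simp only [Set.mem_ofPred_eq, Set.mem_empty_iff_false, iff_false]
      exact fun hg => h ⟨g, hg⟩
    rw [this]
    exact Set.finite_empty

open Classical in
theorem avg_rB' (hfin : ∀ v : V, (MulAction.stabilizer Γ v : Set Γ).Finite) (n q : ℕ)
    (hn : n ≠ 0) : IsAvg (rB' Γ V E n q) := by
  have hmf : ∀ a : Aug V n, (movers (Γ := Γ) a).Finite := fun a =>
    movers_finite a (stab_finite hfin n hn a)
  let L : Aug V n → Finset Γ := fun a => (hmf a).toFinset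
  have hL : ∀ a g, g ∈ L a ↔ g ∈ movers (Γ := Γ) a := fun a g => (hmf a).mem_toFinset
  have hLne : ∀ a, ((L a).card : ℚ) ≠ 0 := by
    intro a
    obtain ⟨g, hg⟩ := movers_nonempty (Γ := Γ) a
    exact_mod_cast (Finset.card_pos.mpr ⟨g, (hL a g).mpr hg⟩).ne'
  have hLsm : ∀ (y : Γ) (a : Aug V n), L (y • a) = (L a).image (fun g => y * g) := by
    intro y a
    ext g
    rw [hL, Finset.mem_image]
    constructor
    · intro hg
      refine ⟨y⁻¹ * g, ?_, by simp⟩
      rw [hL, ← movers_smul y, mul_inv_cancel_left]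
      exact hg
    · rintro ⟨g', hg', rfl⟩
      rw [movers_smul]
      exact (hL a g').mp hg'
  let W : T q (HH E) (MM V n) →ₗ[ℚ] (Γ →₀ T q (HH E) (MM V n)) := lsum ℚ fun x => lsum ℚ fun a =>
    ((L a).card : ℚ)⁻¹ • ∑ g ∈ L a, ((lsingle g) ∘ₗ (lsingle x) ∘ₗ (lsingle a))
  have hW : ∀ x a r, W (single x (single a r)) =
      ((L a).card : ℚ)⁻¹ • ∑ g ∈ L a, single g (single x (single a r)) := by
    intro x a r
    simp only [W, Finsupp.lsum_single, LinearMap.smul_apply, LinearMap.sum_apply]
    rfl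
  refine ⟨W, fun c => ?_, fun g c => ?_⟩
  · have h : (augM Γ (T q (HH E) (MM V n))) ∘ₗ W = LinearMap.id := by
      apply TI_ext
      intro x a r
      rw [LinearMap.comp_apply, hW, map_smul, map_sum]
      simp only [augM_single]
      rw [Finset.sum_const, ← Nat.cast_smul_eq_nsmul ℚ, smul_smul, inv_mul_cancel₀ (hLne a),
        one_smul]
      rfl
    exact DFunLike.congr_fun h c
  · have h : W ∘ₗ (rB' Γ V E n q g) = (indRep (rB' Γ V E n q) g) ∘ₗ W := by
      apply TI_ext
      intro x a r
      have e : rB' Γ V E n q g (single x (single a r)) =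
          single (gH g ∘ x) (single (g • a) r) := by
        change gC n q g _ = _
        rw [gC, mp_single, gM_single]
        rfl
      rw [LinearMap.comp_apply, LinearMap.comp_apply, e, hW, hW, map_smul, map_sum, hLsm,
        Finset.card_image_of_injective _ (mul_right_injective g),
        Finset.sum_image (fun _ _ _ _ h => mul_left_cancel h)]
      congr 1
      apply Finset.sum_congr rfl
      intro y _
      rw [indRep_single, e]
    exact DFunLike.congr_fun h c

end Left

section Map

variable {Γ V E : Type} [Group Γ] [MulAction Γ V] [MulAction Γ E] {Q : Edges V E} {v₀ : V}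
  {G : Type} [Group G] (M : Mag (Γ := Γ) Q v₀ G)

/-- The labels of the vertices. -/
noncomputable def Mag.lab (v : Γ) (x : G) : E →₀ ℤ := gE v⁻¹ (M.c x)

/-- The family of maps, on homogeneous chains. -/
noncomputable def Mag.Fv (n q : ℕ) (v : Γ) : T (q + 1) G ℚ →ₗ[ℚ] T q (HH E) (MM V n) :=
  (Th Q (single (v⁻¹ • v₀) 1) n q) ∘ₗ (mp (q + 1) (M.lab v) LinearMap.id)

/-- The comparison map, on homogeneous chains. -/
noncomputable def Mag.fh (n q : ℕ) : T (q + 1) G (Γ →₀ ℚ) →ₗ[ℚ] T q (HH E) (MM V n) :=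
  comb (q + 1) (M.Fv n q)

/-- The comparison map. -/
noncomputable def Mag.f (n q : ℕ) : Bq Γ G q →ₗ[ℚ] T q (HH E) (MM V n) := (M.fh n q) ∘ₗ (sg q)

theorem Mag.lab_mul (g x : G) (v : Γ) :
    M.lab (M.γ g * v) (g * x) = gE (M.γ g * v)⁻¹ (M.c g) + M.lab v x := by
  unfold Mag.lab
  rw [M.mul, map_add, ← gE_mul (M.γ g * v)⁻¹ (M.γ g), mul_inv_rev, inv_mul_cancel_right]

theorem Mag.fh_tr (hQ : EqE Γ Q) (n q : ℕ) (g : G) (z : T (q + 1) G (Γ →₀ ℚ)) :
    M.fh n q (tr M.repB (q + 1) g z) = M.fh n q z := by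
  have h : (M.fh n q) ∘ₗ (tr M.repB (q + 1) g) = M.fh n q := by
    apply TI_ext
    intro x v r
    rw [LinearMap.comp_apply, tr, mp_single, permRep_single, M.σB_apply, Mag.fh, comb_single,
      comb_single, Mag.Fv, Mag.Fv, LinearMap.comp_apply, LinearMap.comp_apply, mp_single,
      mp_single]
    have e1 : (single (M.lab (M.γ g * v) ∘ (fun x => g * x) ∘ x) ((LinearMap.id : ℚ →ₗ[ℚ] ℚ) r) :
        T (q + 1) (E →₀ ℤ) ℚ) = mp (q + 1) (fun y => gE (M.γ g * v)⁻¹ (M.c g) + y) LinearMap.id
          (single (M.lab v ∘ x) ((LinearMap.id : ℚ →ₗ[ℚ] ℚ) r)) := by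
      rw [mp_single]
      congr 1
      funext i
      exact M.lab_mul g (x i) v
    rw [e1, Th_translate, del_gE hQ, M.del]
    congr 2
    rw [map_sub, gV_single, gV_single, smul_smul, mul_inv_rev, inv_mul_cancel_right]
    abel
  exact DFunLike.congr_fun h z

theorem Mag.fh_bd (n q : ℕ) (z : T (q + 2) G (Γ →₀ ℚ)) :
    dd (repM Q n) q (M.fh n (q + 1) z) = M.fh n q (bd (q + 1) z) := by
  have h : (dd (repM Q n) q) ∘ₗ (M.fh n (q + 1)) = (M.fh n q) ∘ₗ (bd (q + 1)) := by
    apply TI_ext
    intro x v r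
    rw [LinearMap.comp_apply, LinearMap.comp_apply, Mag.fh, Mag.fh, comb_bd, comb_single,
      comb_single, Mag.Fv, Mag.Fv, LinearMap.comp_apply, LinearMap.comp_apply,
      LinearMap.comp_apply, dd_Th, bd_mp]
  exact DFunLike.congr_fun h z

theorem Mag.f_dd (hQ : EqE Γ Q) (n q : ℕ) (z : Bq Γ G (q + 1)) :
    dd (repM Q n) q (M.f n (q + 1) z) = M.f n q (dd M.repB q z) := by
  unfold Mag.f
  rw [LinearMap.comp_apply, LinearMap.comp_apply, M.fh_bd]
  have h := factor M.repB q (M.fh n q) (fun g w => M.fh_tr hQ n q g w)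
    (bd (q + 1) (sg (q + 1) z))
  rw [h, pp_bd, pp_sg]

theorem Mag.f_single (n q : ℕ) (x : Fin q → G) (v : Γ) (r : ℚ) :
    M.f n q (single x (single v r)) = M.Fv n q v (single (Fin.partialProd x) r) := by
  rw [Mag.f, LinearMap.comp_apply, sg_single, Mag.fh, comb_single]

theorem Mag.f_equiv (hQ : EqE Γ Q) (n q : ℕ) (g : Γ) (z : Bq Γ G q) :
    M.f n q (rB Γ G q g z) = rB' Γ V E n q g (M.f n q z) := by
  have h : (M.f n q) ∘ₗ (rB Γ G q g) = (rB' Γ V E n q g) ∘ₗ (M.f n q) := by
    apply TI_ext
    intro x v r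
    rw [LinearMap.comp_apply, LinearMap.comp_apply, rB_single, M.f_single, M.f_single, Mag.Fv,
      Mag.Fv, LinearMap.comp_apply, LinearMap.comp_apply, mp_single, mp_single]
    have e1 : (single (M.lab (v * g⁻¹) ∘ Fin.partialProd x) ((LinearMap.id : ℚ →ₗ[ℚ] ℚ) r) :
        T (q + 1) (E →₀ ℤ) ℚ) = mp (q + 1) (gE g) LinearMap.id
          (single (M.lab v ∘ Fin.partialProd x) ((LinearMap.id : ℚ →ₗ[ℚ] ℚ) r)) := by
      rw [mp_single]
      congr 1
      funext i
      simp only [Function.comp_apply, Mag.lab]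
      rw [← gE_mul, mul_inv_rev, inv_inv]
    have e2 : (single ((v * g⁻¹)⁻¹ • v₀) 1 : V →₀ ℤ) = gV g (single (v⁻¹ • v₀) 1) := by
      rw [gV_single, smul_smul, mul_inv_rev, inv_inv]
    rw [e1, e2, Th_equiv hQ]
    rfl
  exact DFunLike.congr_fun h z

/-- The pairing with the first complex. -/
noncomputable def Mag.pairB (q : ℕ) (ω : Frm (E →₀ ℤ) q) : Bq Γ G q →ₗ[ℚ] ℚ :=
  (comb (q + 1) (fun v => hpair (M.lab v) q ω)) ∘ₗ (sg q)

theorem Mag.pairM_f (n q : ℕ) (ω : Frm (E →₀ ℤ) q) (z : Bq Γ G q) :
    pairM n q ω (M.f n q z) = (n.descFactorial q : ℚ) * M.pairB q ω z := by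
  have h : (pairM n q ω) ∘ₗ (M.f n q) = (n.descFactorial q : ℚ) • M.pairB q ω := by
    apply TI_ext
    intro x v r
    rw [LinearMap.comp_apply, M.f_single, Mag.Fv, LinearMap.comp_apply,
      pairM_Th Q _ (degZ_single _ _), hpair_mp, LinearMap.smul_apply, Mag.pairB,
      LinearMap.comp_apply, sg_single, comb_single]
    rfl
  exact DFunLike.congr_fun h z

theorem Mag.pairB_dd (q : ℕ) (ω : Frm (E →₀ ℤ) q) (z : Bq Γ G (q + 1)) :
    M.pairB q ω (dd M.repB q z) = 0 := by
  have hinv : ∀ (g : G) (w : T (q + 1) G (Γ →₀ ℚ)),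
      comb (q + 1) (fun v => hpair (M.lab v) q ω) (tr M.repB (q + 1) g w) =
        comb (q + 1) (fun v => hpair (M.lab v) q ω) w := by
    intro g w
    have h : (comb (q + 1) (fun v => hpair (M.lab v) q ω)) ∘ₗ (tr M.repB (q + 1) g) =
        comb (q + 1) (fun v => hpair (M.lab v) q ω) := by
      apply TI_ext
      intro x v r
      rw [LinearMap.comp_apply, tr, mp_single, permRep_single, M.σB_apply, comb_single,
        comb_single, hpair_single, hpair_single]
      congr 2
      funext i
      simp only [Function.comp_apply]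
      rw [M.lab_mul, M.lab_mul]
      abel
    exact DFunLike.congr_fun h w
  have h := factor M.repB q (comb (q + 1) (fun v => hpair (M.lab v) q ω)) hinv
    (bd (q + 1) (sg (q + 1) z))
  rw [pp_bd, pp_sg] at h
  rw [Mag.pairB, LinearMap.comp_apply, ← h, comb_bd]
  have h0 : comb (q + 2) (fun v => (hpair (M.lab v) q ω) ∘ₗ (bd (X := G) (M := ℚ) (q + 1))) = 0 := by
    apply TI_ext
    intro x v r
    rw [comb_single, LinearMap.comp_apply, hpair_bd]
    rfl
  rw [h0]; rfl

end Map


end Pool.Agent.V11187.MG
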