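import Pool.Agent.Y483.AJ2

/-!
Chain maps for graphs with an action of a group: equivariance, for an arbitrary vertex set
(adapted from the starting library, `Pool.Agent.Y483.AJ2`, where the group acts simply
transitively on the vertices).
-/

namespace Pool.Agent.V11187.MG

open Finsupp Pool.Agent.Y483

section Equivariance

variable {Γ V E : Type} [Group Γ] [MulAction Γ V] [MulAction Γ E] (Q : Edges V E)

/-- The source and target are equivariant. -/
structure EqE (Γ : Type) {V E : Type} [Group Γ] [MulAction Γ V] [MulAction Γ E] (Q : Edges V E) :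
    Prop where
  s_smul : ∀ (g : Γ) (e : E), Q.s (g • e) = g • Q.s e
  t_smul : ∀ (g : Γ) (e : E), Q.t (g • e) = g • Q.t e

/-- The action of `Γ` on `0`-chains. -/
noncomputable def gV (g : Γ) : (V →₀ ℤ) →ₗ[ℤ] (V →₀ ℤ) := Finsupp.lmapDomain ℤ ℤ (fun v => g • v)

theorem gV_single (g : Γ) (v : V) (n : ℤ) : gV g (single v n) = single (g • v) n := by
  simp [gV]

theorem degZ_gV (g : Γ) (a : V →₀ ℤ) : degZ V (gV g a) = degZ V a := by
  apply int_ind (fun a => degZ V (gV g a)) (fun a => degZ V a)
    (fun a b => by simp only [map_add]) (fun a b => by simp only [map_add])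
  intro v
  simp only [gV_single, degZ_single]

theorem del_gE {Q : Edges V E} (hQ : EqE Γ Q) (g : Γ) (p : E →₀ ℤ) :
    Q.del (gE g p) = gV g (Q.del p) := by
  apply int_ind (fun p => Q.del (gE g p)) (fun p => gV g (Q.del p))
    (fun a b => by simp only [map_add]) (fun a b => by simp only [map_add])
  intro e
  simp only [gE_single, Q.del_single, map_sub, gV_single, hQ.s_smul, hQ.t_smul]

/-- The action on the `0`-chains of degree `k`. -/
noncomputable def gAug (k : ℕ) (g : Γ) (a : Aug V k) : Aug V k := ⟨gV g a.1, by rw [degZ_gV, a.2]⟩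

/-- The action on `MM V k`. -/
noncomputable def gM (k : ℕ) (g : Γ) : MM V k →ₗ[ℚ] MM V k := lsum ℚ fun a => lsingle (gAug k g a)

theorem gM_single (k : ℕ) (g : Γ) (a : Aug V k) (r : ℚ) :
    gM k g (single a r) = single (gAug k g a) r := by
  simp [gM]

/-- The action on chains. -/
noncomputable def gC (k q : ℕ) (g : Γ) : T q (HH E) (MM V k) →ₗ[ℚ] T q (HH E) (MM V k) :=
  mp q (gH g) (gM k g)

theorem gM_Vv (k : ℕ) (g : Γ) (v : V) (m : MM V k) : gM (k + 1) g (Vv k v m) = Vv k (g • v) (gM k g m) := by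
  have h : (gM (k + 1) g) ∘ₗ (Vv k v) = (Vv k (g • v)) ∘ₗ (gM k g) := by
    apply lhom_ext
    intro a r
    rw [LinearMap.comp_apply, LinearMap.comp_apply, Vv_single, gM_single, gM_single, Vv_single]
    congr 1
    apply Subtype.ext
    change gV g (a.1 + single v 1) = gV g a.1 + single (g • v) 1
    rw [map_add, gV_single]
  exact DFunLike.congr_fun h m

theorem gM_VV (k : ℕ) (g : Γ) (b : V →₀ ℤ) (m : MM V k) :
    gM (k + 1) g (VV k b m) = VV k (gV g b) (gM k g m) := by
  apply int_ind (fun b => gM (k + 1) g (VV k b m)) (fun b => VV k (gV g b) (gM k g m))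
  · intro a b; simp only [map_add, LinearMap.add_apply]
  · intro a b; simp only [map_add, LinearMap.add_apply]
  · intro v
    simp only [gV_single, VV_single, gM_Vv]

theorem gC_mpV (k q : ℕ) (g : Γ) (b : V →₀ ℤ) (z : T q (HH E) (MM V k)) :
    gC (k + 1) q g (mpV k q b z) = mpV k q (gV g b) (gC k q g z) := by
  unfold gC mpV
  rw [mp_mp, mp_mp]
  congr 2
  apply LinearMap.ext
  intro m
  exact gM_VV k g b m

theorem gM_rep {Q : Edges V E} (hQ : EqE Γ Q) (k : ℕ) (g : Γ) (p : HH E) (m : MM V k) :
    gM k g (repM Q k p m) = repM Q k (gH g p) (gM k g m) := by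
  have h : (gM k g) ∘ₗ (repM Q k p) = (repM Q k (gH g p)) ∘ₗ (gM k g) := by
    apply lhom_ext
    intro a r
    rw [LinearMap.comp_apply, LinearMap.comp_apply, permRep_single, gM_single, gM_single,
      permRep_single]
    congr 1
    apply Subtype.ext
    change gV g (a.1 - Q.del p.toAdd) = gV g a.1 - Q.del (gE g p.toAdd)
    rw [map_sub, del_gE hQ]
  exact DFunLike.congr_fun h m

theorem dd_gC {Q : Edges V E} (hQ : EqE Γ Q) (k q : ℕ) (g : Γ) (z : T (q + 1) (HH E) (MM V k)) :
    dd (repM Q k) q (gC k (q + 1) g z) = gC k q g (dd (repM Q k) q z) :=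
  dd_mp (ρ := repM Q k) (τ := repM Q k) (gH g) (gM k g) (gM_rep hQ k g) q z

theorem gC_SS {Q : Edges V E} (hQ : EqE Γ Q) (k q : ℕ) (g : Γ) (p : E →₀ ℤ)
    (z : T q (HH E) (MM V k)) :
    gC (k + 1) (q + 1) g (SS Q k q p z) = SS Q k q (gE g p) (gC k q g z) := by
  apply int_ind (fun p => gC (k + 1) (q + 1) g (SS Q k q p z))
    (fun p => SS Q k q (gE g p) (gC k q g z))
  · intro a b; simp only [map_add, LinearMap.add_apply]
  · intro a b; simp only [map_add, LinearMap.add_apply]
  · intro e
    simp only [gE_single, SS_single]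
    have h1 : gH g (Multiplicative.ofAdd (single e 1 : E →₀ ℤ)) =
        Multiplicative.ofAdd (single (g • e) 1) :=
      congrArg Multiplicative.ofAdd (gE_single g e 1)
    unfold Se gC
    rw [Sop_nat (repM Q (k + 1)) (repM Q (k + 1)) (gH g) (gM k g) (gM (k + 1) g)
      (gM_rep hQ (k + 1) g) _ (Vv k (Q.s e)) (Vv k (Q.s (g • e))) (fun m => by
        rw [hQ.s_smul]; exact gM_Vv k g (Q.s e) m), h1]

/-- Equivariance of the chain maps. -/
theorem Th_equiv {Q : Edges V E} (hQ : EqE Γ Q) (a : V →₀ ℤ) (g : Γ) (k : ℕ) :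
    ∀ (q : ℕ) (z : T (q + 1) (E →₀ ℤ) ℚ),
    Th Q (gV g a) k q (mp (q + 1) (gE g) LinearMap.id z) = gC k q g (Th Q a k q z) := by
  have e : ∀ x, gV g a + Q.del (gE g x) = gV g (a + Q.del x) := by
    intro x
    rw [map_add, del_gE hQ]
  induction k with
  | zero =>
    intro q z
    cases q with
    | zero =>
      have h : (Th Q (gV g a) 0 0) ∘ₗ (mp 1 (gE g) LinearMap.id) =
          (gC 0 0 g) ∘ₗ (Th Q a 0 0) := by
        apply T_ext
        intro x r
        rw [LinearMap.comp_apply, LinearMap.comp_apply, mp_single, Th_zero_single, Th_zero_single,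
          gC, mp_single, gM_single]
        have e0 : gAug 0 g (aug0 V) = aug0 V := Subtype.ext (map_zero _)
        rw [e0]
        congr 1
        exact Subsingleton.elim _ _
      exact DFunLike.congr_fun h z
    | succ q => rw [Th, Th]; simp
  | succ k ih =>
    intro q z
    cases q with
    | zero =>
      have h : (Th Q (gV g a) (k + 1) 0) ∘ₗ (mp 1 (gE g) LinearMap.id) =
          (gC (k + 1) 0 g) ∘ₗ (Th Q a (k + 1) 0) := by
        apply T_ext
        intro x r
        rw [LinearMap.comp_apply, LinearMap.comp_apply, single_eq_cone, mp_cone, Th_succ_zero,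
          Th_succ_zero, ← mp_cone, ih, e, gC_mpV]
      exact DFunLike.congr_fun h z
    | succ q =>
      have h : (Th Q (gV g a) (k + 1) (q + 1)) ∘ₗ (mp (q + 2) (gE g) LinearMap.id) =
          (gC (k + 1) (q + 1) g) ∘ₗ (Th Q a (k + 1) (q + 1)) := by
        apply T_ext
        intro x r
        rw [LinearMap.comp_apply, LinearMap.comp_apply, single_eq_cone, single_eq_cone, mp_cone,
          Th_succ_succ, Th_succ_succ, ← mp_cone, ih, e, mp_cone, Lam_cone, Lam_cone, ← mp_cone, ih,
          map_add (gC (k + 1) (q + 1) g), gC_mpV, gC_SS hQ, map_sub (gE g)]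
      exact DFunLike.congr_fun h z

end Equivariance

end Pool.Agent.V11187.MG
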