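import Pool.Agent.V11187.MG.Ker

/-!
A surjective homomorphism with locally finite kernel is injective on rational homology.
-/

namespace Pool.Agent.V11187.MG

open Finsupp Pool.Agent.Y483

section Average

variable {G : Type} [Group G] (A : Finset G)

/-- Independent averaging of the vertices over the elements of `A`. -/
noncomputable def Pav : (n : ℕ) → (T n G ℚ →ₗ[ℚ] T n G ℚ)
  | 0 => LinearMap.id
  | n + 1 => lsum ℚ fun x => (A.card : ℚ)⁻¹ • ∑ a ∈ A,
      (cone n (x 0 * a)) ∘ₗ (Pav n) ∘ₗ (lsingle (Fin.tail x))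

theorem Pav_cone (n : ℕ) (h : G) (y : T n G ℚ) :
    Pav A (n + 1) (cone n h y) = (A.card : ℚ)⁻¹ • ∑ a ∈ A, cone n (h * a) (Pav A n y) := by
  have e : (Pav A (n + 1)) ∘ₗ (cone n h) =
      (A.card : ℚ)⁻¹ • ∑ a ∈ A, (cone n (h * a)) ∘ₗ (Pav A n) := by
    apply T_ext
    intro x m
    rw [LinearMap.comp_apply, cone_single, Pav, Finsupp.lsum_single, Fin.cons_zero, Fin.tail_cons]
    simp only [LinearMap.smul_apply, LinearMap.sum_apply, LinearMap.comp_apply, lsingle_apply]
  have e2 := DFunLike.congr_fun e y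
  rw [LinearMap.comp_apply] at e2
  rw [e2]
  simp only [LinearMap.smul_apply, LinearMap.sum_apply, LinearMap.comp_apply]

/-- The homotopy. -/
noncomputable def Dav : (n : ℕ) → (T n G ℚ →ₗ[ℚ] T (n + 1) G ℚ)
  | 0 => 0
  | n + 1 => lsum ℚ fun x => (cone (n + 1) (x 0)) ∘ₗ (Pav A (n + 1)) ∘ₗ (lsingle x) -
      (cone (n + 1) (x 0)) ∘ₗ (Dav n) ∘ₗ (lsingle (Fin.tail x))

theorem Dav_cone (n : ℕ) (h : G) (y : T n G ℚ) :
    Dav A (n + 1) (cone n h y) =
      cone (n + 1) h (Pav A (n + 1) (cone n h y)) - cone (n + 1) h (Dav A n y) := by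
  have e : (Dav A (n + 1)) ∘ₗ (cone n h) =
      (cone (n + 1) h) ∘ₗ (Pav A (n + 1)) ∘ₗ (cone n h) - (cone (n + 1) h) ∘ₗ (Dav A n) := by
    apply T_ext
    intro x m
    rw [LinearMap.comp_apply, LinearMap.sub_apply, LinearMap.comp_apply, LinearMap.comp_apply,
      LinearMap.comp_apply, cone_single, Dav, Finsupp.lsum_single, Fin.cons_zero, Fin.tail_cons]
    rfl
  exact DFunLike.congr_fun e y

variable (hA : A.Nonempty)

include hA in
theorem card_smul {M : Type*} [AddCommGroup M] [Module ℚ M] (x : M) :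
    (A.card : ℚ)⁻¹ • ∑ _a ∈ A, x = x := by
  have hc : (A.card : ℚ) ≠ 0 := by exact_mod_cast (Finset.card_pos.mpr hA).ne'
  rw [Finset.sum_const, ← Nat.cast_smul_eq_nsmul ℚ, smul_smul, inv_mul_cancel₀ hc, one_smul]

include hA in
theorem bd_Pav (n : ℕ) (z : T (n + 1) G ℚ) : bd n (Pav A (n + 1) z) = Pav A n (bd n z) := by
  induction n with
  | zero =>
    have h : (bd 0) ∘ₗ (Pav A 1) = (Pav A 0) ∘ₗ (bd 0) := by
      apply T_ext
      intro x m
      rw [LinearMap.comp_apply, LinearMap.comp_apply, single_eq_cone, Pav_cone, map_smul, map_sum]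
      simp only [bd_cone_zero]
      exact card_smul A hA _
    exact DFunLike.congr_fun h z
  | succ n ih =>
    have h : (bd (n + 1)) ∘ₗ (Pav A (n + 2)) = (Pav A (n + 1)) ∘ₗ (bd (n + 1)) := by
      apply T_ext
      intro x m
      rw [LinearMap.comp_apply, LinearMap.comp_apply, single_eq_cone, Pav_cone, map_smul, map_sum]
      simp only [bd_cone_succ, ih, Finset.sum_sub_distrib, smul_sub, map_sub, Pav_cone]
      rw [card_smul A hA]
    exact DFunLike.congr_fun h z

include hA in
theorem Dav_hom (n : ℕ) (z : T (n + 1) G ℚ) :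
    bd (n + 1) (Dav A (n + 1) z) + Dav A n (bd n z) = Pav A (n + 1) z - z := by
  induction n with
  | zero =>
    have h : (bd 1) ∘ₗ (Dav A 1) + (Dav A 0) ∘ₗ (bd 0) = Pav A 1 - LinearMap.id := by
      apply T_ext
      intro x m
      have h0 : Dav A 0 = 0 := rfl
      rw [LinearMap.add_apply, LinearMap.comp_apply, LinearMap.comp_apply, single_eq_cone,
        Dav_cone, h0, LinearMap.zero_apply, LinearMap.zero_apply, map_zero, sub_zero, add_zero,
        bd_cone_succ, bd_Pav A hA, bd_cone_zero]
      rfl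
    exact DFunLike.congr_fun h z
  | succ n ih =>
    have h : (bd (n + 2)) ∘ₗ (Dav A (n + 2)) + (Dav A (n + 1)) ∘ₗ (bd (n + 1)) =
        Pav A (n + 2) - LinearMap.id := by
      apply T_ext
      intro x m
      rw [LinearMap.add_apply, LinearMap.comp_apply, LinearMap.comp_apply, single_eq_cone]
      generalize (x 0) = h0
      generalize (single (Fin.tail x) m : T (n + 1) G ℚ) = y
      rw [Dav_cone, map_sub, bd_cone_succ, bd_cone_succ, bd_Pav A hA, bd_cone_succ n h0 y,
        map_sub (Dav A (n + 1)), Dav_cone]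
      have h1 := ih y
      have h2 : bd (n + 1) (Dav A (n + 1) y) = Pav A (n + 1) y - y - Dav A n (bd n y) := by
        rw [← h1]; abel
      rw [h2]
      simp only [map_sub, LinearMap.sub_apply, LinearMap.id_apply]
      abel
    exact DFunLike.congr_fun h z

theorem Pav_tr (n : ℕ) (g : G) (z : T n G ℚ) :
    Pav A n (mp n (fun x => g * x) LinearMap.id z) =
      mp n (fun x => g * x) LinearMap.id (Pav A n z) := by
  induction n with
  | zero => rfl
  | succ n ih =>
    have h : (Pav A (n + 1)) ∘ₗ (mp (n + 1) (fun x => g * x) LinearMap.id) =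
        (mp (n + 1) (fun x => g * x) LinearMap.id) ∘ₗ (Pav A (n + 1)) := by
      apply T_ext
      intro x m
      rw [LinearMap.comp_apply, LinearMap.comp_apply, single_eq_cone, mp_cone, Pav_cone, Pav_cone,
        map_smul, map_sum]
      simp only [mp_cone, ih, mul_assoc]
    exact DFunLike.congr_fun h z

theorem Dav_tr (n : ℕ) (g : G) (z : T n G ℚ) :
    Dav A n (mp n (fun x => g * x) LinearMap.id z) =
      mp (n + 1) (fun x => g * x) LinearMap.id (Dav A n z) := by
  induction n with
  | zero =>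
    have h0 : Dav A 0 = 0 := rfl
    rw [h0, LinearMap.zero_apply, LinearMap.zero_apply, map_zero]
  | succ n ih =>
    have h : (Dav A (n + 1)) ∘ₗ (mp (n + 1) (fun x => g * x) LinearMap.id) =
        (mp (n + 2) (fun x => g * x) LinearMap.id) ∘ₗ (Dav A (n + 1)) := by
      apply T_ext
      intro x m
      rw [LinearMap.comp_apply, LinearMap.comp_apply, single_eq_cone, mp_cone, Dav_cone, Dav_cone,
        ih, map_sub, mp_cone, mp_cone, ← mp_cone n, Pav_tr]
    exact DFunLike.congr_fun h z

/-- Averaging does not see right multiplication of the vertices by elements of `A`. -/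
theorem Pav_kill (hA : ∀ b ∈ A, ∀ a, b * a ∈ A ↔ a ∈ A) (n : ℕ) :
    ∀ (x x' : Fin n → G) (_ : ∀ i, ∃ b ∈ A, x' i = x i * b) (r : ℚ),
      Pav A n (single x r) = Pav A n (single x' r) := by
  induction n with
  | zero =>
    intro x x' _ r
    congr 2
    exact Subsingleton.elim _ _
  | succ n ih =>
    intro x x' h r
    rw [single_eq_cone, single_eq_cone, Pav_cone, Pav_cone,
      ih (Fin.tail x) (Fin.tail x') (fun i => h i.succ) r]
    congr 1
    obtain ⟨b, hb, hx⟩ := h 0
    rw [hx]
    symm
    apply Finset.sum_bij (fun a _ => b * a)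
    · intro a ha
      exact (hA b hb a).mpr ha
    · intro a _ a' _ h
      exact mul_left_cancel h
    · intro a ha
      refine ⟨b⁻¹ * a, ?_, by simp⟩
      rw [← hA b hb]
      simpa using ha
    · intro a _
      rw [mul_assoc]

end Average

section Kernel

variable {G K : Type} [Group G] [Group K] (p : G →* K)

/-- A cycle whose image in the quotient by a locally finite normal subgroup is zero is a
boundary. -/
theorem range_of_mp_zero
    (hloc : ∀ S : Finset G, (∀ s ∈ S, p s = 1) → ∃ A : Subgroup G, Finite A ∧ ∀ s ∈ S, s ∈ A)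
    (n : ℕ) (z : T n G ℚ) (hz : Cyc (trivR G ℚ) n z) (h0 : mp n p LinearMap.id z = 0) :
    z ∈ LinearMap.range (dd (trivR G ℚ) n) := by
  classical
  -- the finite subgroup
  obtain ⟨A₀, hfin, hA₀⟩ := hloc
    ((z.support ×ˢ z.support).biUnion fun gg => (Finset.univ.image fun i =>
      if p ((Fin.partialProd gg.1 i)⁻¹ * Fin.partialProd gg.2 i) = 1 then
        (Fin.partialProd gg.1 i)⁻¹ * Fin.partialProd gg.2 i else 1)) (by
      intro s hs
      rw [Finset.mem_biUnion] at hs
      obtain ⟨gg, -, hs⟩ := hs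
      rw [Finset.mem_image] at hs
      obtain ⟨i, -, rfl⟩ := hs
      split_ifs with h
      · exact h
      · exact map_one p)
  have := Fintype.ofFinite A₀
  let A : Finset G := (A₀ : Set G).toFinset
  have hmem : ∀ a, a ∈ A ↔ a ∈ A₀ := fun a => by simp [A]
  have hAne : A.Nonempty := ⟨1, (hmem 1).mpr A₀.one_mem⟩
  have hAmul : ∀ b ∈ A, ∀ a, b * a ∈ A ↔ a ∈ A := by
    intro b hb a
    rw [hmem, hmem]
    exact A₀.mul_mem_cancel_left ((hmem b).mp hb)
  -- the averaged chain vanishes
  have hP : Pav A (n + 1) (sg n z) = 0 := by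
    let Ψ : (Fin n → G) → T (n + 1) G ℚ := fun g => Pav A (n + 1) (single (Fin.partialProd g) 1)
    have hΨ : ∀ g ∈ z.support, ∀ g' ∈ z.support, p ∘ g = p ∘ g' → Ψ g = Ψ g' := by
      intro g hg g' hg' hgg
      apply Pav_kill A hAmul
      intro i
      refine ⟨(Fin.partialProd g i)⁻¹ * Fin.partialProd g' i, ?_, by simp⟩
      rw [hmem]
      have hpp : ∀ j, p (Fin.partialProd g j) = p (Fin.partialProd g' j) := by
        intro j
        induction j using Fin.induction with
        | zero => simp
        | succ j ih =>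
          rw [Fin.partialProd_succ, Fin.partialProd_succ, map_mul, map_mul, ih]
          congr 1
          exact congrFun hgg j
      have h1 : p ((Fin.partialProd g i)⁻¹ * Fin.partialProd g' i) = 1 := by
        rw [map_mul, map_inv, hpp i, inv_mul_cancel]
      apply hA₀
      rw [Finset.mem_biUnion]
      refine ⟨(g, g'), Finset.mem_product.mpr ⟨hg, hg'⟩, ?_⟩
      rw [Finset.mem_image]
      exact ⟨i, Finset.mem_univ i, if_pos h1⟩
    let rep : (Fin n → K) → (Fin n → G) := fun c =>
      if h : ∃ g ∈ z.support, p ∘ g = c then h.choose else 1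
    have hrep : ∀ g ∈ z.support, Ψ (rep (p ∘ g)) = Ψ g := by
      intro g hg
      have h : ∃ g' ∈ z.support, p ∘ g' = p ∘ g := ⟨g, hg, rfl⟩
      have e : rep (p ∘ g) = h.choose := dif_pos h
      rw [e]
      exact hΨ _ h.choose_spec.1 g hg h.choose_spec.2
    have e1 : Pav A (n + 1) (sg n z) = Finsupp.linearCombination ℚ Ψ z := by
      have h : (Pav A (n + 1)) ∘ₗ (sg n) = Finsupp.linearCombination ℚ Ψ := by
        apply T_ext
        intro g r
        rw [LinearMap.comp_apply, sg_single, Finsupp.linearCombination_single]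
        change _ = r • Pav A (n + 1) (single (Fin.partialProd g) 1)
        rw [← map_smul, Finsupp.smul_single, smul_eq_mul, mul_one]
      exact DFunLike.congr_fun h z
    have e2 : Finsupp.linearCombination ℚ Ψ z =
        Finsupp.linearCombination ℚ (Ψ ∘ rep) (mp n p LinearMap.id z) := by
      have e3 : mp n p LinearMap.id z = Finsupp.mapDomain (fun g => p ∘ g) z := by
        have h : (mp n p (LinearMap.id : ℚ →ₗ[ℚ] ℚ)) =
            Finsupp.lmapDomain ℚ ℚ (fun g : Fin n → G => (p ∘ g : Fin n → K)) := by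
          apply T_ext
          intro g r
          rw [mp_single, Finsupp.lmapDomain_apply, Finsupp.mapDomain_single]
          rfl
        exact DFunLike.congr_fun h z
      rw [e3, Finsupp.linearCombination_mapDomain, Finsupp.linearCombination_apply,
        Finsupp.linearCombination_apply]
      apply Finsupp.sum_congr
      intro g hg
      congr 1
      exact (hrep g hg).symm
    rw [e1, e2, h0, map_zero]
  have key := descend (trivR G ℚ) (trivR G ℚ) (fun k => (LinearMap.id : T k G ℚ →ₗ[ℚ] T k G ℚ))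
    (fun k => Pav A k) (fun k => Dav A k) rfl (fun k w => Dav_hom A hAne k w) (by
      intro k g w
      have e : tr (trivR G ℚ) (k + 1) g w = mp (k + 1) (fun x => g * x) LinearMap.id w := rfl
      rw [e, Dav_tr]
      exact pp_tr (trivR G ℚ) (k + 1) g _) n z hz
  rw [hP, map_zero, zero_sub, LinearMap.id_apply, pp_sg] at key
  refine ⟨-(pp (trivR G ℚ) (n + 1) (Dav A (n + 1) (sg n z))), ?_⟩
  rw [map_neg, key, neg_neg]

/-- **A surjective homomorphism with locally finite kernel is injective on rational homology.** -/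
theorem hq_inj_of_loc (hp : Function.Surjective p)
    (hloc : ∀ S : Finset G, (∀ s ∈ S, p s = 1) → ∃ A : Subgroup G, Finite A ∧ ∀ s ∈ S, s ∈ A)
    (n : ℕ) (x : HQ n G) (hx : hqMap p n x = 0) : x = 0 := by
  obtain ⟨z, hz⟩ := exists_rpr (Rep.trivial ℚ G ℚ) n x
  obtain ⟨w, hw⟩ := (hz.hq p).eq_zero_iff.mp hx
  -- lift the bounding chain
  obtain ⟨f, hf⟩ : ∃ f : K → G, ∀ k, p (f k) = k := ⟨fun k => (hp k).choose,
    fun k => (hp k).choose_spec⟩
  have e1 : mp (n + 1) p LinearMap.id (mp (n + 1) f LinearMap.id w) = w := by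
    rw [mp_mp]
    have e : (p : G → K) ∘ f = id := funext hf
    rw [e]
    exact mp_id _ _
  rw [hz.eq_zero_iff]
  have h1 : z - dd (trivR G ℚ) n (mp (n + 1) f LinearMap.id w) ∈
      LinearMap.range (dd (trivR G ℚ) n) := by
    apply range_of_mp_zero p hloc
    · have h2 := hz.cyc
      cases n with
      | zero => exact Cyc.zero _ _
      | succ n =>
        rw [cyc_succ] at *
        rw [map_sub, dd_dd, sub_zero]
        exact h2
    · rw [map_sub]
      have h3 := dd_mp (ρ := trivR G ℚ) (τ := trivR K ℚ) p LinearMap.id (fun _ _ => rfl) n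
        (mp (n + 1) f LinearMap.id w)
      rw [← h3, e1]
      exact sub_eq_zero.mpr hw.symm
  have h2 := Submodule.add_mem _ h1 (⟨_, rfl⟩ : dd (trivR G ℚ) n (mp (n + 1) f LinearMap.id w) ∈
    LinearMap.range (dd (trivR G ℚ) n))
  rwa [sub_add_cancel] at h2

end Kernel

end Pool.Agent.V11187.MG
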