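import Pool.Agent.V11187.MG.Grp
import Pool.Agent.V11187.MG.Loc

/-!
The Magnus quotient `π / [R, R]` of a group which acts on a tree with finite vertex stabilizers.
-/

namespace Pool.Agent.V11187.MG

open CategoryTheory Finsupp Pool.Agent.Y483 Pool.Agent.Y75.MQ

section Fin

variable {π V E : Type} [Group π] [MulAction π V] [MulAction π E] {Q : Edges V E} {v₀ : V}
  (hQ : EqE π Q) (hT : ∀ v, ∃! p, Q.del p = single v 1 - single v₀ 1)
  (R : Subgroup π) [hR : R.Normal]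

theorem muT_comm (c : π) (hc : c ∈ ⁅R, R⁆) : muT hQ hT R c = 1 := by
  have h : ⁅R, R⁆ ≤ (muT hQ hT R).ker := by
    rw [Subgroup.commutator_le]
    intro g hg h hh
    rw [MonoidHom.mem_ker, map_commutatorElement, commutatorElement_eq_one_iff_mul_comm,
      ← map_mul, ← map_mul]
    apply SemidirectProduct.ext
    · change Multiplicative.ofAdd (cB hT R (g * h)) = Multiplicative.ofAdd (cB hT R (h * g))
      rw [cB_mul_R hQ hT R g hg, cB_mul_R hQ hT R h hh, add_comm]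
    · change (QuotientGroup.mk (g * h) : π ⧸ R) = QuotientGroup.mk (h * g)
      rw [(QuotientGroup.eq_one_iff (g * h)).mpr (R.mul_mem hg hh),
        (QuotientGroup.eq_one_iff (h * g)).mpr (R.mul_mem hh hg)]
  exact h hc

/-- The projection of the Magnus quotient. -/
noncomputable def pM : (π ⧸ ⁅R, R⁆) →* IM hQ hT R :=
  QuotientGroup.lift ⁅R, R⁆ (muT hQ hT R).rangeRestrict (fun c hc => by
    apply Subtype.ext
    exact muT_comm hQ hT R c hc)

theorem pM_surj : Function.Surjective (pM hQ hT R) := by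
  rintro ⟨w, g, rfl⟩
  exact ⟨QuotientGroup.mk g, rfl⟩

/-- The kernel of the projection is locally finite. -/
theorem pM_loc (hfin : ∀ v : V, (MulAction.stabilizer π v : Set π).Finite)
    (S : Finset (π ⧸ ⁅R, R⁆)) (hS : ∀ s ∈ S, pM hQ hT R s = 1) :
    ∃ A : Subgroup (π ⧸ ⁅R, R⁆), Finite A ∧ ∀ s ∈ S, s ∈ A := by
  have hrep : ∀ x : π ⧸ ⁅R, R⁆, pM hQ hT R x = 1 →
      ∃ k : R, (QuotientGroup.mk k.1 : π ⧸ ⁅R, R⁆) = x ∧ cB hT R k.1 = 0 := by
    intro x hx
    induction x using QuotientGroup.induction_on with | H g =>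
    have h1 : muT hQ hT R g = 1 := congrArg Subtype.val hx
    have h2 : (QuotientGroup.mk g : π ⧸ R) = 1 := congrArg SemidirectProduct.right h1
    have h3 : Multiplicative.ofAdd (cB hT R g) = 1 := congrArg SemidirectProduct.left h1
    exact ⟨⟨g, (QuotientGroup.eq_one_iff g).mp h2⟩, rfl, h3⟩
  have hcomm : ∀ x ∈ (S : Set (π ⧸ ⁅R, R⁆)), ∀ y ∈ (S : Set (π ⧸ ⁅R, R⁆)), x * y = y * x := by
    intro x hx y hy
    obtain ⟨k, rfl, -⟩ := hrep x (hS x hx)
    obtain ⟨l, rfl, -⟩ := hrep y (hS y hy)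
    rw [← QuotientGroup.mk_mul, ← QuotientGroup.mk_mul]
    symm
    rw [QuotientGroup.eq]
    have h1 := Subgroup.commutator_mem_commutator (R.inv_mem k.2) (R.inv_mem l.2)
    rw [commutatorElement_def] at h1
    have e : (l.1 * k.1)⁻¹ * (k.1 * l.1) = k.1⁻¹ * l.1⁻¹ * k.1⁻¹⁻¹ * l.1⁻¹⁻¹ := by group
    rw [e]
    exact h1
  have htor : ∀ x : π ⧸ ⁅R, R⁆, pM hQ hT R x = 1 → IsOfFinOrder x := by
    intro x hx
    obtain ⟨k, rfl, hk⟩ := hrep x hx
    obtain ⟨m, hm, h⟩ := kR_pow_mem hQ hT R hfin k hk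
    rw [isOfFinOrder_iff_pow_eq_one]
    refine ⟨m, hm, ?_⟩
    rw [← QuotientGroup.mk_pow, QuotientGroup.eq_one_iff]
    rw [← Subgroup.map_subtype_commutator]
    exact ⟨k ^ m, h, rfl⟩
  have hmc : IsMulCommutative (Subgroup.closure (S : Set (π ⧸ ⁅R, R⁆))) :=
    Subgroup.isMulCommutative_closure hcomm
  let hcg : CommGroup (Subgroup.closure (S : Set (π ⧸ ⁅R, R⁆))) :=
    { (inferInstance : Group (Subgroup.closure (S : Set (π ⧸ ⁅R, R⁆)))) with
      mul_comm := fun a b => hmc.is_comm.comm a b }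
  have hle : Subgroup.closure (S : Set (π ⧸ ⁅R, R⁆)) ≤ (pM hQ hT R).ker := by
    rw [Subgroup.closure_le]
    intro s hs
    exact hS s hs
  refine ⟨Subgroup.closure (S : Set (π ⧸ ⁅R, R⁆)), ?_, fun s hs => Subgroup.subset_closure hs⟩
  have ht : IsMulTorsion (Subgroup.closure (S : Set (π ⧸ ⁅R, R⁆))) := by
    intro x
    have h1 := htor x.1 (hle x.2)
    exact (Subgroup.subtype_injective _).isOfFinOrder_iff.mp h1
  exact CommGroup.finite_of_fg_isMulTorsion _ ht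

variable {B : Type} (d : B → ℕ) {F : GrpCat.{0} ⥤ ModuleCat.{0} ℚ} (α : ∀ b : B, hq (d b) ⟶ F)

include hQ hT in
/-- **Injectivity for `π / [R, R]`.** -/
theorem ker_quo (hE : PW.HasPT F)
    (hfin : ∀ v : V, (MulAction.stabilizer π v : Set π).Finite)
    (hZ : ∀ n, LinearMap.ker (tb d α (Zn n)) = ⊥) :
    LinearMap.ker (tb d α (π ⧸ ⁅R, R⁆)) = ⊥ := by
  have hfin' : ∀ o : Orb R V, (MulAction.stabilizer (π ⧸ R) o : Set (π ⧸ R)).Finite := by
    intro o
    obtain ⟨v, rfl⟩ := orb_surj o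
    exact stab_orb_finite v (hfin v)
  have h1 : LinearMap.ker (tb d α (IM hQ hT R)) = ⊥ :=
    ker_mag d α hE (quoQ_eq hQ R) hfin' (magT hQ hT R) hZ
  rw [eq_bot_iff]
  intro x hx
  have h2 : hbMap d (pM hQ hT R) x ∈ LinearMap.ker (tb d α (IM hQ hT R)) :=
    tb_map d α (pM hQ hT R) hx
  rw [h1, Submodule.mem_bot] at h2
  rw [Submodule.mem_bot]
  apply DFunLike.ext
  intro b
  change x b = 0
  apply hq_inj_of_loc (pM hQ hT R) (pM_surj hQ hT R) (pM_loc hQ hT R hfin)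
  have h3 := congrArg (fun u : HB d (IM hQ hT R) => u b) h2
  have h4 := hbMap_apply d (pM hQ hT R) x b
  rw [← h4]
  exact h3

end Fin

end Pool.Agent.V11187.MG
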