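import Pool.Agent.V11187.MG.Idx
import Pool.Agent.Y483.PW.Stm

/-!
Free products (from the kernel formula of the starting library).
-/

namespace Pool.Agent.V11187.MG

open CategoryTheory Finsupp Monoid Pool.Agent.Y483 Pool.Agent.Y75.MQ Pool.Agent.Y110.KW

variable {B : Type} (d : B → ℕ) {F : GrpCat.{0} ⥤ ModuleCat.{0} ℚ} (α : ∀ b : B, hq (d b) ⟶ F)

section Free

variable {I : Type} (P : I → Type) [∀ i, Group (P i)]

/-- The trivial group acts. -/
@[instance_reducible]
def trivAct (I : Type) : MulAction Unit I where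
  smul _ i := i
  one_smul _ := rfl
  mul_smul _ _ _ := rfl

theorem loc0 : IsLocal (∅ : Set (CoprodI P)) := fun _ hr => hr.elim

/-- The trivial action. -/
def rho0 : Unit →* MulAut (CoprodI P) := 1

theorem pres0 : PW.Preserves (rho0 P) (∅ : Set (CoprodI P)) := fun _ _ hr => hr.elim

theorem perm0 : letI := trivAct I; PW.Permutes (rho0 P) := by
  let _ := trivAct I
  intro γ v x
  exact ⟨x, rfl⟩

/-- The free product in the semidirect product. -/
noncomputable def toS : CoprodI P →* Quo (∅ : Set (CoprodI P)) ⋊[PW.qAct (pres0 P)] Unit :=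
  SemidirectProduct.inl.comp (QuotientGroup.mk' (Subgroup.normalClosure (∅ : Set (CoprodI P))))

/-- The projection back. -/
noncomputable def ofS : Quo (∅ : Set (CoprodI P)) ⋊[PW.qAct (pres0 P)] Unit →* CoprodI P where
  toFun w := quoLift (R := (∅ : Set (CoprodI P))) (MonoidHom.id (CoprodI P)) (fun r hr => hr.elim) w.left
  map_one' := map_one _
  map_mul' w w' := by
    rw [← map_mul]
    congr 1
    change w.left * (PW.qAct (pres0 P) w.right w'.left) = w.left * w'.left
    congr 1
    have h : w.right = 1 := rfl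
    rw [h, map_one]
    rfl

theorem ofS_toS (x : CoprodI P) : ofS P (toS P x) = x := rfl

theorem ker_free (hE : PW.HasPT F) (hP : ∀ i, LinearMap.ker (tb d α (P i)) = ⊥)
    (hZ : LinearMap.ker (tb d α (Zn 0)) = ⊥) :
    LinearMap.ker (tb d α (CoprodI P)) = ⊥ := by
  classical
  let _ := trivAct I
  have h := PW.loc_genSub hE α (loc0 P) (perm0 P) (pres0 P)
  have h0 : LinearMap.ker (tb d α (Quo (∅ : Set (CoprodI P)) ⋊[PW.qAct (pres0 P)] Unit)) =
      ⨆ σ : PW.Sys.Cliq (Linked (∅ : Set (CoprodI P))),
      (LinearMap.ker (tb d α (PW.genG (pres0 P) σ.1))).map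
        (hbMap d (PW.genG (pres0 P) σ.1).subtype) := h
  have h1 : LinearMap.ker (tb d α (Quo (∅ : Set (CoprodI P)) ⋊[PW.qAct (pres0 P)] Unit)) = ⊥ := by
    rw [h0, iSup_eq_bot]
    intro σ
    have hinr : ∀ w ∈ (fixingSubgroup Unit ((σ.1 : Finset I) : Set I)).map
        (SemidirectProduct.inr : Unit →* Quo (∅ : Set (CoprodI P)) ⋊[PW.qAct (pres0 P)] Unit),
        w = 1 := by
      rintro w ⟨u, -, rfl⟩
      exact map_one _
    have hsub : ∀ u ∈ σ.1, ∀ v ∈ σ.1, u = v := by
      intro u hu v hv
      by_contra hne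
      obtain ⟨r, hr, -⟩ := σ.2 u hu v hv hne
      exact hr.elim
    -- every element comes from a factor, or from the trivial group
    have key : ∀ (K : Type) [Group K] (q : K →* Quo (∅ : Set (CoprodI P)) ⋊[PW.qAct (pres0 P)] Unit)
        (r : Quo (∅ : Set (CoprodI P)) ⋊[PW.qAct (pres0 P)] Unit →* K) (_ : ∀ k, r (q k) = k)
        (_ : PW.genG (pres0 P) σ.1 ≤ q.range) (_ : LinearMap.ker (tb d α K) = ⊥),
        (LinearMap.ker (tb d α (PW.genG (pres0 P) σ.1))).map
        (hbMap d (PW.genG (pres0 P) σ.1).subtype) = ⊥ := by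
      intro K _ q r hqr hle hK
      rw [eq_bot_iff]
      rintro _ ⟨x, hx, rfl⟩
      have h2 : hbMap d (r.comp (PW.genG (pres0 P) σ.1).subtype) x ∈ LinearMap.ker (tb d α K) :=
        tb_map d α _ hx
      rw [hK, Submodule.mem_bot] at h2
      have e : (PW.genG (pres0 P) σ.1).subtype =
          q.comp (r.comp (PW.genG (pres0 P) σ.1).subtype) := by
        ext1 w
        obtain ⟨k, hk⟩ := hle w.2
        change w.1 = q (r w.1)
        rw [← hk, hqr]
      rw [Submodule.mem_bot, e, hbMap_comp, h2, map_zero]
    by_cases hσ : σ.1.Nonempty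
    · obtain ⟨i, hi⟩ := hσ
      refine key (P i) ((toS P).comp CoprodI.of)
        ((CoprodI.lift (Pi.mulSingle i (MonoidHom.id (P i)))).comp (ofS P)) ?_ ?_ (hP i)
      · intro k
        exact CoprodI.of_leftInverse i k
      · unfold PW.genG
        apply sup_le
        · apply iSup₂_le
          intro v hv
          have hvi := hsub v hv i hi
          subst hvi
          rintro _ ⟨x, rfl⟩
          exact ⟨x, rfl⟩
        · intro w hw
          rw [hinr w hw]
          exact one_mem _
    · have hσ0 : σ.1 = ∅ := Finset.not_nonempty_iff_eq_empty.mp hσ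
      refine key (Zn 0) 1 1 ?_ ?_ hZ
      · intro k
        exact Subsingleton.elim _ _
      · unfold PW.genG
        apply sup_le
        · apply iSup₂_le
          intro v hv
          rw [hσ0] at hv
          exact (Finset.notMem_empty v hv).elim
        · intro w hw
          rw [hinr w hw]
          exact one_mem _
  rw [eq_bot_iff]
  intro x hx
  have h3 : hbMap d (toS P) x = 0 := (LinearMap.ker_eq_bot'.mp h1) _ (tb_map d α _ hx)
  have h4 := congrArg (hbMap d (ofS P)) h3
  rw [← hbMap_comp, map_zero] at h4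
  have e : (ofS P).comp (toS P) = MonoidHom.id (CoprodI P) := MonoidHom.ext (ofS_toS P)
  rw [e, hbMap_id] at h4
  exact h4

end Free

/-- The smallest class of groups which contains the groups `π / [R, R]`, where `π` is any group which
acts by automorphisms on a tree with finite vertex stabilizers and `R` is any normal subgroup of
`π`, and which is closed under overgroups of finite index, under extensions with locally finite
kernel, and under free products. -/
inductive TreeMagnus : GrpCat.{0} → Prop
  | quotient {π V : Type} [Group π] [MulAction π V] (Tr : SimpleGraph V) (hT : Tr.IsTree)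
      (hadj : ∀ (g : π) (u v : V), Tr.Adj u v → Tr.Adj (g • u) (g • v))
      (hfin : ∀ v : V, Finite (MulAction.stabilizer π v)) (R : Subgroup π) [R.Normal] :
      TreeMagnus (GrpCat.of (π ⧸ ⁅R, R⁆))
  | index {G : Type} [Group G] (H : Subgroup G) [H.FiniteIndex] (h : TreeMagnus (GrpCat.of H)) :
      TreeMagnus (GrpCat.of G)
  | locfin {G K : Type} [Group G] [Group K] (p : G →* K) (hp : Function.Surjective p)
      (hloc : ∀ S : Finset G, (∀ s ∈ S, p s = 1) → Finite (Subgroup.closure (S : Set G)))
      (h : TreeMagnus (GrpCat.of K)) : TreeMagnus (GrpCat.of G)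
  | free {I : Type} (P : I → Type) [∀ i, Group (P i)] (h : ∀ i, TreeMagnus (GrpCat.of (P i))) :
      TreeMagnus (GrpCat.of (CoprodI P))

/-- **Main theorem.** -/
theorem ker_class (hE : PW.HasPT F)
    (h : (∀ n, kerFam α (zn n) = ⊥) ∨ (Function.Injective d ∧ ∀ b, (α b).app (zn (d b)) ≠ 0))
    (G : GrpCat.{0}) (hG : TreeMagnus G) : kerFam α G = ⊥ := by
  have hZ : ∀ n, LinearMap.ker (tb d α (Zn n)) = ⊥ := by
    rcases h with h | ⟨h1, h2⟩
    · exact h
    · exact ker_Zn_of_top_b d α h1 h2
  induction hG with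
  | quotient Tr hT hadj hfin R =>
    exact ker_tree hadj d α hE hT (fun v => Set.toFinite _) R hZ
  | index H _ ih => exact ker_index d α hE (hZ 0) (H := H) ih
  | locfin p hp hloc _ ih => exact ker_locfin d α p hp hloc ih
  | free P _ ih => exact ker_free d α P hE ih (hZ 0)

end Pool.Agent.V11187.MG
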