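import Pool.Agent.V11187.MG.Tree

/-!
For a group `π` which acts on a tree and a normal subgroup `R` of `π`: the image of `π` in the
semidirect product of the `1`-chains of the quotient graph and `π / R`, and its kernel.
-/

namespace Pool.Agent.V11187.MG

open Finsupp Pool.Agent.Y483

section Grp

variable {π V E : Type} [Group π] [MulAction π V] [MulAction π E] {Q : Edges V E} {v₀ : V}
  (hQ : EqE π Q) (hT : ∀ v, ∃! p, Q.del p = single v 1 - single v₀ 1)
  (R : Subgroup π) [hR : R.Normal]

/-- The image of `π`. -/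
abbrev IM : Type := (muT hQ hT R).range

/-- The image of `π` is the group of the pairs `(m, γ)` with `∂ m = γ v₀ - v₀`. -/
noncomputable def magT : Mag (Γ := π ⧸ R) (quoQ Q R hQ) (orb R v₀) (IM hQ hT R) where
  γ := (SemidirectProduct.rightHom : WE (π ⧸ R) (Orb R E) →* π ⧸ R).comp
    (muT hQ hT R).range.subtype
  c w := w.1.left.toAdd
  mul g h := rfl
  del w := by
    obtain ⟨w, g, rfl⟩ := w
    exact del_cB hQ hT R g
  inj g h h1 h2 := by
    apply Subtype.ext
    apply SemidirectProduct.ext
    · exact h2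
    · exact h1
  sur m y h := by
    induction y using QuotientGroup.induction_on with | H g =>
    have h1 : (quoQ Q R hQ).del (gE (QuotientGroup.mk g : π ⧸ R)⁻¹ (m - cB hT R g)) = 0 := by
      rw [del_gE (quoQ_eq hQ R), map_sub, h, del_cB hQ hT R g, sub_self, map_zero]
    obtain ⟨r, hr⟩ := exists_cB hQ hT R _ h1
    refine ⟨⟨muT hQ hT R (g * r.1), ⟨_, rfl⟩⟩, ?_, ?_⟩
    · change (QuotientGroup.mk (g * r.1) : π ⧸ R) = QuotientGroup.mk g
      rw [QuotientGroup.mk_mul, (QuotientGroup.eq_one_iff r.1).mpr r.2, mul_one]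
    · change cB hT R (g * r.1) = m
      rw [cB_mul hQ hT, hr, ← gE_mul, mul_inv_cancel, gE_one]
      abel
  gen o := by
    obtain ⟨v, rfl⟩ := orb_surj o
    refine ⟨prE R (path hT v), ?_⟩
    rw [del_prE, del_path, map_sub, prV_single, prV_single]

include hQ in
/-- An element of `R` whose chain in the quotient graph is zero has a power in the commutator
subgroup of `R`. -/
theorem kR_pow_mem (hfin : ∀ v : V, (MulAction.stabilizer π v : Set π).Finite) (k : R)
    (hk : cB hT R k.1 = 0) : ∃ m : ℕ, 0 < m ∧ k ^ m ∈ commutator R := by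
  classical
  let Bq := Abelianization R ⧸ CommGroup.torsion (Abelianization R)
  let cls : R →* Bq := (QuotientGroup.mk' _).comp Abelianization.of
  have hcls : ∀ r : R, IsOfFinOrder r → cls r = 1 := by
    intro r hr
    change (QuotientGroup.mk (Abelianization.of r) : Bq) = 1
    rw [QuotientGroup.eq_one_iff]
    exact (Abelianization.of : R →* _).isOfFinOrder hr
  have hcls' : ∀ r : R, cls r = 1 → ∃ m : ℕ, 0 < m ∧ r ^ m ∈ commutator R := by
    intro r hr
    change (QuotientGroup.mk (Abelianization.of r) : Bq) = 1 at hr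
    rw [QuotientGroup.eq_one_iff] at hr
    obtain ⟨m, hm, h⟩ := isOfFinOrder_iff_pow_eq_one.mp hr
    refine ⟨m, hm, ?_⟩
    rw [← map_pow] at h
    rwa [← Abelianization.ker_of, MonoidHom.mem_ker]
  -- representatives of the vertices
  obtain ⟨f, hf⟩ : ∃ f : Orb R V → V, ∀ o, orb R (f o) = o :=
    ⟨fun o => (orb_surj o).choose, fun o => (orb_surj o).choose_spec⟩
  have ha : ∀ v : V, ∃ r : R, r.1 • f (orb R v) = v := by
    intro v
    obtain ⟨r, hr, h⟩ := orb_eq.mp (hf (orb R v)).symm
    exact ⟨⟨r, hr⟩, h⟩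
  choose a ha using ha
  let A : V → Additive Bq := fun v => Additive.ofMul (cls (a v))
  have hA : ∀ (r : R) (v : V), A (r.1 • v) = Additive.ofMul (cls r) + A v := by
    intro r v
    have ho : orb R (r.1 • v) = orb R v := orb_eq.mpr ⟨r.1, r.2, rfl⟩
    have h1 : (a (r.1 • v)).1 • f (orb R v) = (r * a v).1 • f (orb R v) := by
      rw [← ho, ha, ho, Subgroup.coe_mul, mul_smul, ha]
    have h2 : cls ((r * a v)⁻¹ * a (r.1 • v)) = 1 := by
      apply hcls
      have h3 : ((r * a v)⁻¹ * a (r.1 • v)).1 ∈ MulAction.stabilizer π (f (orb R v)) := by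
        rw [MulAction.mem_stabilizer_iff, Subgroup.coe_mul, mul_smul, h1, ← mul_smul]
        rw [← Subgroup.coe_mul, inv_mul_cancel]
        exact one_smul _ _
      have h4 : Finite (MulAction.stabilizer π (f (orb R v))) := (hfin _).to_subtype
      have h5 : IsOfFinOrder (⟨_, h3⟩ : MulAction.stabilizer π (f (orb R v))) :=
        isOfFinOrder_of_finite _
      have h6 := (MulAction.stabilizer π (f (orb R v))).subtype.isOfFinOrder h5
      exact (R.subtype_injective.isOfFinOrder_iff (f := R.subtype)).mp h6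
    change Additive.ofMul (cls (a (r.1 • v))) = Additive.ofMul (cls r * cls (a v))
    rw [← map_mul]
    congr 1
    rw [map_mul, map_inv] at h2
    exact (inv_mul_eq_one.mp h2).symm
  -- the homomorphism on the chains of the quotient graph
  let AA : (V →₀ ℤ) →ₗ[ℤ] Additive Bq := Finsupp.linearCombination ℤ A
  have hlam : ∀ (e e' : E), orb R e = orb R e' → A (Q.t e) - A (Q.s e) = A (Q.t e') - A (Q.s e') := by
    intro e e' h
    obtain ⟨r, hr, h2⟩ := orb_eq.mp h
    have h3 := hA ⟨r, hr⟩ (Q.t e')
    have h4 := hA ⟨r, hr⟩ (Q.s e')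
    rw [← h2, hQ.t_smul, hQ.s_smul, h3, h4]
    abel
  obtain ⟨fE, hfE⟩ : ∃ f : Orb R E → E, ∀ o, orb R (f o) = o :=
    ⟨fun o => (orb_surj o).choose, fun o => (orb_surj o).choose_spec⟩
  let L : (Orb R E →₀ ℤ) →ₗ[ℤ] Additive Bq :=
    Finsupp.linearCombination ℤ (fun o => A (Q.t (fE o)) - A (Q.s (fE o)))
  have hL : ∀ p : E →₀ ℤ, L (prE R p) = AA (Q.del p) := by
    intro p
    apply int_ind (fun p => L (prE R p)) (fun p => AA (Q.del p))
      (fun a b => by simp only [map_add]) (fun a b => by simp only [map_add])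
    intro e
    simp only [prE_single, Edges.del_single, map_sub, L, AA, Finsupp.linearCombination_single,
      one_smul]
    exact hlam _ _ (hfE _)
  have h1 : L (cB hT R k.1) = Additive.ofMul (cls k) := by
    have h2 : L (cB hT R k.1) = A (k.1 • v₀) - A v₀ := by
      unfold cB cT
      rw [hL, del_path, map_sub]
      simp only [AA, Finsupp.linearCombination_single, one_smul]
    rw [h2, hA]
    abel
  rw [hk, map_zero] at h1
  apply hcls'
  exact (Additive.ofMul.injective h1).symm

end Grp

end Pool.Agent.V11187.MG
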