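import Pool.Agent.V11187.MG.Tr

/-!
Overgroups of finite index, and extensions with locally finite kernel.
-/

namespace Pool.Agent.V11187.MG

open CategoryTheory Finsupp Pool.Agent.Y483 Pool.Agent.Y75.MQ

variable {B : Type} (d : B → ℕ) {F : GrpCat.{0} ⥤ ModuleCat.{0} ℚ} (α : ∀ b : B, hq (d b) ⟶ F)

section Index

variable {G : Type} [Group G] (H : Subgroup G)

/-- The cocycle of the cosets of a subgroup of finite index. -/
noncomputable def idxC (g : G) (a : G ⧸ H) : H := ⟨(g • a).out⁻¹ * (g * a.out), by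
  rw [← QuotientGroup.eq, QuotientGroup.out_eq']
  conv_lhs => rw [← QuotientGroup.out_eq' a]
  rfl⟩

/-- The pair of cocycles. -/
noncomputable def idxP [H.FiniteIndex] : FinPair G (G ⧸ H) H where
  σ := MulAction.toPermHom G (G ⧸ H)
  c := idxC H
  d _ _ := 1
  mul_c g h a := by
    apply Subtype.ext
    change ((g * h) • a).out⁻¹ * (g * h * a.out) =
      ((g • h • a).out⁻¹ * (g * (h • a).out)) * ((h • a).out⁻¹ * (h * a.out))
    rw [mul_smul]
    group
  mul_d _ _ _ := (one_mul 1).symm
  fin _ := Set.toFinite _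

theorem core_smul (n : H.normalCore) (a : G ⧸ H) : n.1 • a = a := by
  induction a using QuotientGroup.induction_on with | H t =>
  change (QuotientGroup.mk (n.1 * t) : G ⧸ H) = QuotientGroup.mk t
  rw [eq_comm, QuotientGroup.eq]
  have h := H.normalCore_normal.conj_mem n.1 n.2 t⁻¹
  have h2 := H.normalCore_le h
  have e : t⁻¹ * n.1 * t⁻¹⁻¹ = t⁻¹ * (n.1 * t) := by group
  rwa [e] at h2

/-- The labels. -/
noncomputable def idxL (a : G ⧸ H) : H.normalCore →* H where
  toFun n := idxC H n.1 a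
  map_one' := by
    apply Subtype.ext
    change ((1 : G) • a).out⁻¹ * (1 * a.out) = 1
    rw [one_smul]
    group
  map_mul' n n' := by
    apply Subtype.ext
    change ((n.1 * n'.1) • a).out⁻¹ * (n.1 * n'.1 * a.out) =
      ((n.1 • a).out⁻¹ * (n.1 * a.out)) * ((n'.1 • a).out⁻¹ * (n'.1 * a.out))
    simp only [mul_smul, core_smul]
    group

theorem idxL_incl (a : G ⧸ H) :
    H.subtype.comp (idxL H a) = conjHom H.normalCore.subtype (a.out)⁻¹ := by
  ext1 n
  change (n.1 • a).out⁻¹ * (n.1 * a.out) = _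
  rw [core_smul]
  simp [conjHom, mul_assoc]

variable {H}

/-- **Overgroups of finite index.** -/
theorem ker_index [H.FiniteIndex] (hE : PW.HasPT F) (hZ : LinearMap.ker (tb d α (Zn 0)) = ⊥)
    (hH : LinearMap.ker (tb d α H) = ⊥) : LinearMap.ker (tb d α G) = ⊥ := by
  classical
  have := Fintype.ofFinite (G ⧸ H)
  rw [eq_bot_iff]
  intro x hx
  -- the class comes from the normal core
  have h1 : ∀ b : B, ∃ y : HQ (d b) H.normalCore, hqMap H.normalCore.subtype (d b) y = x b := by
    intro b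
    apply from_finite_index (A := G ⧸ H.normalCore)
      (MulAction.toPermHom G (G ⧸ H.normalCore)) (QuotientGroup.mk 1)
    · intro a
      induction a using QuotientGroup.induction_on with | H t =>
      exact ⟨t, congrArg QuotientGroup.mk (mul_one t)⟩
    · exact H.normalCore.subtype_injective
    · intro k
      change (QuotientGroup.mk (k.1 * 1) : G ⧸ H.normalCore) = QuotientGroup.mk 1
      rw [mul_one]
      exact (QuotientGroup.eq_one_iff k.1).mpr k.2
    · intro h hh
      have h2 : (QuotientGroup.mk (h * 1) : G ⧸ H.normalCore) = QuotientGroup.mk 1 := hh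
      rw [mul_one] at h2
      exact ⟨⟨h, (QuotientGroup.eq_one_iff h).mp h2⟩, rfl⟩
  choose y₀ hy₀ using h1
  obtain ⟨y, hy⟩ : ∃ y : HB d H.normalCore, hbMap d H.normalCore.subtype y = x := by
    refine ⟨∑ j ∈ DFinsupp.support x, DirectSum.of (fun j : B => HQ (d j) H.normalCore) j (y₀ j), ?_⟩
    rw [map_sum]
    conv_rhs => rw [← DirectSum.sum_support_of x]
    apply Finset.sum_congr rfl
    intro j _
    rw [hbMap_of, hy₀]
  -- the degree zero part
  have hone : hbMap d (1 : H.normalCore →* H) y = 0 := by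
    have h2 : hbMap d (1 : G →* Zn 0) x = 0 := by
      have h3 : hbMap d (1 : G →* Zn 0) x ∈ LinearMap.ker (tb d α (Zn 0)) := tb_map d α _ hx
      rwa [hZ, Submodule.mem_bot] at h3
    rw [← hy, ← hbMap_comp] at h2
    have e : (1 : H.normalCore →* H) = (1 : Zn 0 →* H).comp
      ((1 : G →* Zn 0).comp H.normalCore.subtype) := rfl
    rw [e, hbMap_comp, h2, map_zero]
  obtain ⟨Φ, hΦ⟩ := hE G (G ⧸ H) H (idxP H)
  have h4 := hΦ H.normalCore H.normalCore.subtype Finset.univ (idxL H) (fun _ => 1)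
    (fun a _ n => ⟨core_smul H n a, rfl, rfl⟩) (fun a ha => (ha (Finset.mem_univ a)).elim)
    (tb d α H.normalCore y)
  have hx0 : tb d α G x = 0 := hx
  rw [tb_nat, hy, hx0, map_zero] at h4
  have h5 : tb d α H (∑ a : G ⧸ H, hbMap d (idxL H a) y) = 0 := by
    rw [map_sum, h4]
    apply Finset.sum_congr rfl
    intro a _
    rw [tb_nat, tb_nat, hone, map_zero, sub_zero]
  have h6 : (∑ a : G ⧸ H, hbMap d (idxL H a) y) ∈ LinearMap.ker (tb d α H) := h5
  rw [hH, Submodule.mem_bot] at h6
  have h7 := congrArg (hbMap d H.subtype) h6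
  rw [map_sum, map_zero] at h7
  have h8 : ∀ a : G ⧸ H, hbMap d H.subtype (hbMap d (idxL H a) y) = x := by
    intro a
    rw [← hbMap_comp, idxL_incl, hbMap_conj, hy]
  rw [Finset.sum_congr rfl (fun a _ => h8 a), Finset.sum_const, Finset.card_univ] at h7
  rw [← Nat.cast_smul_eq_nsmul ℚ] at h7
  have hc : (Fintype.card (G ⧸ H) : ℚ) ≠ 0 := by
    exact_mod_cast Fintype.card_ne_zero
  rw [Submodule.mem_bot]
  exact (smul_eq_zero.mp h7).resolve_left hc

end Index

/-- **Extensions with locally finite kernel.** -/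
theorem ker_locfin {G K : Type} [Group G] [Group K] (p : G →* K) (hp : Function.Surjective p)
    (hloc : ∀ S : Finset G, (∀ s ∈ S, p s = 1) → Finite (Subgroup.closure (S : Set G)))
    (hK : LinearMap.ker (tb d α K) = ⊥) : LinearMap.ker (tb d α G) = ⊥ := by
  rw [eq_bot_iff]
  intro x hx
  have h2 : hbMap d p x ∈ LinearMap.ker (tb d α K) := tb_map d α p hx
  rw [hK, Submodule.mem_bot] at h2
  rw [Submodule.mem_bot]
  apply DFunLike.ext
  intro b
  change x b = 0
  apply hq_inj_of_loc p hp
    (fun S hS => ⟨Subgroup.closure (S : Set G), hloc S hS, fun s hs => Subgroup.subset_closure hs⟩)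
  have h3 := congrArg (fun u : HB d K => u b) h2
  have h4 := hbMap_apply d p x b
  rw [← h4]
  exact h3

/-- **Main theorem.** -/
theorem ker_main (hE : PW.HasPT F)
    (h : (∀ n, kerFam α (zn n) = ⊥) ∨
      (Function.Injective d ∧ ∀ b, (α b).app (zn (d b)) ≠ 0))
    {π V G : Type} [Group π] [MulAction π V] [Group G] (Tr : SimpleGraph V) (hT : Tr.IsTree)
    (hadj : ∀ (g : π) (u v : V), Tr.Adj u v → Tr.Adj (g • u) (g • v))
    (hfin : ∀ v : V, Finite (MulAction.stabilizer π v)) (R : Subgroup π) [R.Normal]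
    (H : Subgroup G) [H.FiniteIndex] (p : H →* π ⧸ ⁅R, R⁆) (hp : Function.Surjective p)
    (hloc : ∀ S : Finset H, (∀ s ∈ S, p s = 1) → Finite (Subgroup.closure (S : Set H))) :
    kerFam α (GrpCat.of G) = ⊥ := by
  have hZ : ∀ n, LinearMap.ker (tb d α (Zn n)) = ⊥ := by
    rcases h with h | ⟨h1, h2⟩
    · exact h
    · exact ker_Zn_of_top_b d α h1 h2
  rw [kerFam_eq]
  apply ker_index d α hE (hZ 0) (H := H)
  apply ker_locfin d α p hp hloc
  exact ker_tree hadj d α hE hT (fun v => Set.toFinite _) R hZ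

end Pool.Agent.V11187.MG
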