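import Pool.Agent.V11187.MG.Thm
import Pool.Agent.Y483.PW.Int

/-!
Injectivity of families of natural transformations on the groups of the pairs `(m, γ)` with
`∂ m = γ v₀ - v₀`, for a graph with an action of a group with finite stabilisers of the vertices.
-/

namespace Pool.Agent.V11187.MG

open Finsupp Pool.Agent.Y483 Pool.Agent.Y110.KW Pool.Agent.Y75.MQ CategoryTheory DirectSum Pointwise

/-- A class comes from a subgroup of finite index. -/
theorem from_finite_index {A G K : Type} [Group G] [Group K] [Finite A] (σ : G →* Equiv.Perm A)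
    (a₀ : A) (ht : ∀ a, ∃ h, σ h a₀ = a) (i : K →* G) (hi : Function.Injective i)
    (hstab : ∀ k, σ (i k) a₀ = a₀) (hex : ∀ h, σ h a₀ = a₀ → ∃ k, i k = h) (n : ℕ) (x : HQ n G) :
    ∃ y : HQ n K, hqMap i n y = x := by
  classical
  have := Fintype.ofFinite A
  obtain ⟨z, hz⟩ := exists_rpr (Rep.trivial ℚ G ℚ) n x
  have hcard : ((Fintype.card A : ℚ)) ≠ 0 := by
    have : Nonempty A := ⟨a₀⟩
    exact_mod_cast Fintype.card_ne_zero
  -- the norm element
  let ν : ℚ →ₗ[ℚ] (A →₀ ℚ) := ((Fintype.card A : ℚ))⁻¹ • ∑ a : A, lsingle a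
  have hν : ∀ r, ν r = ((Fintype.card A : ℚ))⁻¹ • ∑ a : A, single a r := by
    intro r
    simp only [ν, LinearMap.smul_apply, LinearMap.sum_apply]
    rfl
  have hνg : ∀ (g : G) (r : ℚ), ν (trivR G ℚ g r) = permRep σ g (ν r) := by
    intro g r
    have e1 : trivR G ℚ g r = r := rfl
    rw [e1, hν, map_smul, map_sum]
    congr 1
    simp only [permRep_single]
    exact (Equiv.sum_comp (σ g) (fun a => single a r)).symm
  have hνs : (sumC A) ∘ₗ ν = LinearMap.id := by
    apply LinearMap.ext
    intro r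
    rw [LinearMap.comp_apply, hν, map_smul, map_sum]
    simp only [sumC_single, Finset.sum_const, Finset.card_univ]
    rw [← Nat.cast_smul_eq_nsmul ℚ, smul_smul, inv_mul_cancel₀ hcard, one_smul]
    rfl
  set zt : T n G (A →₀ ℚ) := mp n id ν z with hzt
  have hztc : Cyc (permRep σ) n zt := by
    apply cyc_mp (ρ := trivR G ℚ) (τ := permRep σ) (MonoidHom.id G) ν hνg n z hz.cyc
  obtain ⟨y, hy, hy2⟩ := shapiro σ a₀ ht i hi hstab hex (trivR K ℚ) (fun _ => rfl) n zt hztc
  have h1 := range_mp (ρ := permRep σ) (τ := trivR G ℚ) (MonoidHom.id G) (sumC A)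
    (fun g m => sumC_permRep σ g m) n _ hy2
  rw [map_sub] at h1
  have e1 : mp n (MonoidHom.id G) (sumC A) zt = z := by
    rw [hzt, mp_mp, hνs]
    exact mp_id _ _
  have e2 : mp n (MonoidHom.id G) (sumC A) (mp n i (lsingle a₀) y) = mp n i LinearMap.id y := by
    rw [mp_mp]
    have e3 : (sumC A) ∘ₗ (lsingle a₀) = LinearMap.id := by
      apply LinearMap.ext
      intro r
      simp
    rw [e3]
    rfl
  rw [e1, e2] at h1
  obtain ⟨w, hw⟩ := exists_class (A := Rep.trivial ℚ K ℚ) n y hy
  refine ⟨w, ?_⟩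
  have h2 := hz.sub (hw.hq i)
  have h3 := h2.eq_zero_iff.mpr h1
  exact (sub_eq_zero.mp h3).symm


section Edge

variable {Γ E : Type} [Group Γ] [MulAction Γ E]

open Classical in
/-- The system of supports on the free abelian group on the edges: `e_S` forgets the edges which are
not in `S`. -/
noncomputable def sysE (Γ E : Type) [Group Γ] [MulAction Γ E] : PW.Sys Γ (HH E) E where
  φ := phiE Γ E
  e S :=
    { toFun := fun p => Multiplicative.ofAdd (p.toAdd.filter (fun e => e ∈ S))
      map_one' := by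
        change Multiplicative.ofAdd (Finsupp.filter _ (0 : E →₀ ℤ)) = 1
        rw [Finsupp.filter_zero]; rfl
      map_mul' := fun p p' => by
        change Multiplicative.ofAdd (Finsupp.filter _ (p.toAdd + p'.toAdd)) = _
        rw [Finsupp.filter_add]; rfl }
  inter S S' p := by
    apply congrArg Multiplicative.ofAdd
    ext e
    simp only [Finsupp.filter_apply, Set.mem_inter_iff]
    by_cases h : e ∈ S <;> by_cases h' : e ∈ S' <;> simp [h, h']
  equivariant g S p := by
    apply congrArg Multiplicative.ofAdd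
    change gE g (Finsupp.filter _ p.toAdd) = Finsupp.filter _ (gE g p.toAdd)
    apply int_ind (fun p => gE g (Finsupp.filter (fun e => e ∈ S) p))
      (fun p => Finsupp.filter (fun e => e ∈ g • S) (gE g p))
    · intro a b
      simp only [Finsupp.filter_add, map_add]
    · intro a b
      simp only [map_add, Finsupp.filter_add]
    · intro e
      simp only [gE_single]
      have h : g • e ∈ g • S ↔ e ∈ S := Set.smul_mem_smul_set_iff
      by_cases h' : e ∈ S
      · rw [Finsupp.filter_single_of_pos (p := fun e => e ∈ S) (h := h'),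
          Finsupp.filter_single_of_pos (p := fun e => e ∈ g • S) (h := h.mpr h'), gE_single]
      · rw [Finsupp.filter_single_of_neg (p := fun e => e ∈ S) (h := h'),
          Finsupp.filter_single_of_neg (p := fun e => e ∈ g • S) (h := fun h2 => h' (h.mp h2)),
          map_zero]
  finite p := by
    refine ⟨p.toAdd.support, ?_⟩
    refine congrArg Multiplicative.ofAdd (?_ : _ = Multiplicative.toAdd p)
    ext e
    rw [Finsupp.filter_apply]
    split_ifs with h
    · rfl
    · by_contra h2
      exact h (Finset.mem_coe.mpr (Finsupp.mem_support_iff.mpr (Ne.symm h2)))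

theorem sysE_fix {S : Set E} {p : HH E} (h : (sysE Γ E).e S p = p) {e : E} (he : e ∉ S) :
    p.toAdd e = 0 := by
  classical
  have h1 : (Finsupp.filter (fun e => e ∈ S) p.toAdd) e = p.toAdd e :=
    DFunLike.congr_fun (congrArg Multiplicative.toAdd h) e
  rw [← h1, Finsupp.filter_apply, if_neg he]

/-- A group element which fixes the edges of `S` fixes the chains supported on `S`. -/
theorem gH_fix {S : Set E} {p : HH E} (h : (sysE Γ E).e S p = p) {g : Γ}
    (hg : ∀ e ∈ S, g • e = e) : gH g p = p := by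
  have h1 : gE g (Multiplicative.toAdd p) = Multiplicative.toAdd p := by
    unfold gE
    rw [Finsupp.lmapDomain_apply]
    conv_rhs => rw [← Finsupp.mapDomain_id (v := Multiplicative.toAdd p)]
    apply Finsupp.mapDomain_congr
    intro e he
    apply hg
    by_contra h2
    exact Finsupp.mem_support_iff.mp he (sysE_fix h h2)
  exact congrArg Multiplicative.ofAdd h1

variable {B : Type} (d : B → ℕ) {F : GrpCat.{0} ⥤ ModuleCat.{0} ℚ} (α : ∀ b : B, hq (d b) ⟶ F)

/-- Retracts of the free abelian group on the edges. -/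
theorem ker_rangeE (hZ : ∀ n, LinearMap.ker (tb d α (Zn n)) = ⊥) (S : Set E) :
    LinearMap.ker (tb d α ((sysE Γ E).e S).range) = ⊥ := by
  apply ker_retract_b d α ((sysE Γ E).e S).range.subtype ((sysE Γ E).e S).rangeRestrict _
    (ker_HH_b d α E hZ)
  rintro ⟨k, p, rfl⟩
  apply Subtype.ext
  change (sysE Γ E).e S ((sysE Γ E).e S p) = _
  rw [(sysE Γ E).inter, Set.inter_self]

/-- The parts with nonempty support. -/
theorem ker_supG (hZ : ∀ n, LinearMap.ker (tb d α (Zn n)) = ⊥)
    (hfin : ∀ e : E, (MulAction.stabilizer Γ e : Set Γ).Finite) (σ : Finset E) (hσ : σ.Nonempty) :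
    LinearMap.ker (tb d α ((sysE Γ E).supG σ)) = ⊥ := by
  obtain ⟨e₀, he₀⟩ := hσ
  set R := ((sysE Γ E).e (σ : Set E)).range with hR
  have hfixR : ∀ p : R, (sysE Γ E).e (σ : Set E) p.1 = p.1 := by
    rintro ⟨k, p, rfl⟩
    change (sysE Γ E).e σ ((sysE Γ E).e σ p) = _
    rw [(sysE Γ E).inter, Set.inter_self]
  -- the finite group of the elements which fix the edges of the support
  let Φ : Subgroup Γ := fixingSubgroup Γ (σ : Set E)
  have hΦ : Finite Φ := by
    apply Set.Finite.subset (hfin e₀)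
    intro g hg
    rw [SetLike.mem_coe, mem_fixingSubgroup_iff] at hg
    exact hg e₀ he₀
  let i : R →* (sysE Γ E).supG σ :=
    { toFun := fun p => ⟨⟨p.1, 1⟩, hfixR p, fun e _ => one_smul Γ e⟩
      map_one' := rfl
      map_mul' := fun p p' => by
        apply Subtype.ext
        apply SemidirectProduct.ext
        · change p.1 * p'.1 = p.1 * (sysE Γ E).φ 1 p'.1
          rw [map_one]; rfl
        · change (1 : Γ) = 1 * 1
          rw [one_mul] }
  let r : (sysE Γ E).supG σ →* R :=
    { toFun := fun w => ⟨w.1.left, w.1.left, w.2.1⟩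
      map_one' := rfl
      map_mul' := fun w w' => by
        apply Subtype.ext
        change w.1.left * (sysE Γ E).φ w.1.right w'.1.left = w.1.left * w'.1.left
        congr 1
        exact gH_fix (S := (σ : Set E)) w'.2.1 w.2.2 }
  have hri : ∀ p, r (i p) = p := fun p => rfl
  let pr : (sysE Γ E).supG σ →* Φ :=
    { toFun := fun w => ⟨w.1.right, by
        rw [mem_fixingSubgroup_iff]
        exact w.2.2⟩
      map_one' := rfl
      map_mul' := fun _ _ => rfl }
  have hsurj := from_finite_index (A := Φ) ((MulAction.toPermHom Φ Φ).comp pr) (1 : Φ)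
    (fun a => ⟨⟨⟨1, a.1⟩, map_one _, (mem_fixingSubgroup_iff Γ).mp a.2⟩, by
      change pr _ * 1 = a
      rw [mul_one]; rfl⟩) i
    (fun p p' h => by
      have h1 := congrArg r h
      rwa [hri, hri] at h1)
    (fun p => by
      change pr (i p) * 1 = 1
      rw [mul_one]; rfl)
    (fun w hw => by
      have h1 : pr w = 1 := by
        have h2 : pr w * 1 = 1 := hw
        rwa [mul_one] at h2
      refine ⟨r w, ?_⟩
      apply Subtype.ext
      apply SemidirectProduct.ext
      · rfl
      · exact (congrArg Subtype.val h1).symm)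
  rw [eq_bot_iff]
  intro x hx
  have h1 : hbMap d r x ∈ LinearMap.ker (tb d α R) := tb_map d α r hx
  rw [ker_rangeE d α hZ, Submodule.mem_bot] at h1
  rw [Submodule.mem_bot]
  apply DFunLike.ext
  intro b
  obtain ⟨y, hy⟩ := hsurj (d b) (x b)
  have h2 : hqMap r (d b) (x b) = 0 := by
    rw [← hbMap_apply, h1]; rfl
  have h3 : y = 0 := by
    rw [← hy, ← hqMap_comp] at h2
    have h4 : r.comp i = MonoidHom.id R := MonoidHom.ext hri
    rwa [h4, hqMap_id] at h2
  change x b = 0
  rw [← hy, h3, map_zero]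

/-- The kernel for the semidirect product comes from `Γ`. -/
theorem ker_WEE (hE : PW.HasPT F) (hZ : ∀ n, LinearMap.ker (tb d α (Zn n)) = ⊥)
    (hfin : ∀ e : E, (MulAction.stabilizer Γ e : Set Γ).Finite) :
    LinearMap.ker (tb d α (WE Γ E)) ≤
      (LinearMap.ker (tb d α Γ)).map (hbMap d (SemidirectProduct.inr : Γ →* WE Γ E)) := by
  have h := PW.sys_gen hE α (sysE Γ E)
  have h0 : LinearMap.ker (tb d α (WE Γ E)) = ⨆ σ : (sysE Γ E).Cl,
      (LinearMap.ker (tb d α ((sysE Γ E).supG σ.1))).map
        (hbMap d ((sysE Γ E).supG σ.1).subtype) := h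
  rw [h0]
  apply iSup_le
  intro σ
  by_cases hσ : σ.1.Nonempty
  · rw [ker_supG d α hZ hfin σ.1 hσ, Submodule.map_bot]
    exact bot_le
  · have hσ0 : σ.1 = ∅ := Finset.not_nonempty_iff_eq_empty.mp hσ
    rintro _ ⟨x, hx, rfl⟩
    let pr : (sysE Γ E).supG σ.1 →* Γ :=
      (SemidirectProduct.rightHom : WE Γ E →* Γ).comp ((sysE Γ E).supG σ.1).subtype
    refine ⟨hbMap d pr x, tb_map d α pr hx, ?_⟩
    rw [← hbMap_comp]
    have e : (SemidirectProduct.inr : Γ →* WE Γ E).comp pr = ((sysE Γ E).supG σ.1).subtype := by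
      ext1 w
      apply SemidirectProduct.ext
      · have h1 : (sysE Γ E).e (σ.1 : Set E) w.1.left = w.1.left := w.2.1
        change (1 : HH E) = w.1.left
        apply Multiplicative.toAdd.injective
        ext e
        change (0 : ℤ) = _
        rw [sysE_fix h1]
        rw [hσ0, Finset.coe_empty]
        exact Set.notMem_empty e
      · rfl
    rw [e]
    rfl

end Edge

section Main

variable {B : Type} (d : B → ℕ) {F : GrpCat.{0} ⥤ ModuleCat.{0} ℚ} (α : ∀ b : B, hq (d b) ⟶ F)
  {Γ V E : Type} [Group Γ] [MulAction Γ V] [MulAction Γ E] {Q : Edges V E} {v₀ : V}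
  {G : Type} [Group G]

/-- **Injectivity for the groups of the pairs `(m, γ)` with `∂ m = γ v₀ - v₀`.** -/
theorem ker_mag (hE : PW.HasPT F) (hQ : EqE Γ Q)
    (hfin : ∀ v : V, (MulAction.stabilizer Γ v : Set Γ).Finite) (M : Mag (Γ := Γ) Q v₀ G)
    (hZ : ∀ n, LinearMap.ker (tb d α (Zn n)) = ⊥) : LinearMap.ker (tb d α G) = ⊥ := by
  have hfinE : ∀ e : E, (MulAction.stabilizer Γ e : Set Γ).Finite := by
    intro e
    apply (hfin (Q.s e)).subset
    intro g hg
    rw [SetLike.mem_coe, MulAction.mem_stabilizer_iff] at *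
    rw [← hQ.s_smul, hg]
  rw [eq_bot_iff]
  intro x hx
  have h1 : hbMap d M.mu x ∈ LinearMap.ker (tb d α (WE Γ E)) := tb_map d α M.mu hx
  obtain ⟨y, -, hy⟩ := ker_WEE d α hE hZ hfinE h1
  have h0 : hbMap d (1 : G →* Zn 0) x ∈ LinearMap.ker (tb d α (Zn 0)) := tb_map d α _ hx
  rw [hZ, Submodule.mem_bot] at h0
  rw [Submodule.mem_bot]
  apply DFunLike.ext
  intro b
  change x b = 0
  have hx1 : hqMap (1 : G →* Zn 0) (d b) (x b) = 0 := by
    have h2 := congrArg (fun u : HB d (Zn 0) => u b) h0
    exact (hbMap_apply d (1 : G →* Zn 0) x b).symm.trans h2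
  have hx2 : hqMap M.mu (d b) (x b) =
      hqMap (SemidirectProduct.inr : Γ →* WE Γ E) (d b) (y b) := by
    have h3 := congrArg (fun u : HB d (WE Γ E) => u b) hy
    have h4 := hbMap_apply d (SemidirectProduct.inr : Γ →* WE Γ E) y b
    have h5 := hbMap_apply d M.mu x b
    exact h5.symm.trans (h3.symm.trans h4)
  generalize x b = xb at *
  generalize y b = yb at *
  generalize d b = j at *
  cases j with
  | zero => exact hq_zero_injective (1 : G →* Zn 0) _ hx1
  | succ j =>
    obtain ⟨z, hz⟩ := exists_rpr (Rep.trivial ℚ G ℚ) (j + 1) xb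
    obtain ⟨w, hw⟩ := exists_rpr (Rep.trivial ℚ Γ ℚ) (j + 1) yb
    have h2 : hqMap M.mu (j + 1) xb -
        hqMap (SemidirectProduct.inr : Γ →* WE Γ E) (j + 1) yb = 0 := by
      rw [hx2, sub_self]
    have h3 := (hz.hq M.mu).sub (hw.hq (SemidirectProduct.inr : Γ →* WE Γ E))
    rw [h3.eq_zero_iff] at h2
    have h4 := M.theoremH hQ hfin j z ((cyc_succ _ _ _).mp hz.cyc) w h2
    exact hz.eq_zero_iff.mpr h4

end Main

end Pool.Agent.V11187.MG
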