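import Pool.Agent.V11187.MG.Fin
import Mathlib.Combinatorics.SimpleGraph.Acyclic

/-!
The subdivision of a tree (`SimpleGraph.IsTree`) on which a group acts.
-/

namespace Pool.Agent.V11187.MG

open CategoryTheory Finsupp Pool.Agent.Y483 Pool.Agent.Y75.MQ

section Simple

variable {π V : Type} [Group π] [MulAction π V] {Tr : SimpleGraph V}
  (hadj : ∀ (g : π) (u v : V), Tr.Adj u v → Tr.Adj (g • u) (g • v))

/-- The vertices of the subdivision. -/
inductive SV (hadj : ∀ (g : π) (u v : V), Tr.Adj u v → Tr.Adj (g • u) (g • v)) : Type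
  | ver (v : V) : SV hadj
  | mid (e : Tr.edgeSet) : SV hadj

/-- The edges of the subdivision. -/
structure SD (hadj : ∀ (g : π) (u v : V), Tr.Adj u v → Tr.Adj (g • u) (g • v)) : Type where
  /-- The vertex of the edge. -/
  a : V
  /-- The other vertex of the subdivided edge. -/
  b : V
  adj : Tr.Adj a b

include hadj in
theorem edge_map (g : π) {e : Sym2 V} (he : e ∈ Tr.edgeSet) :
    e.map (fun v => g • v) ∈ Tr.edgeSet := by
  induction e using Sym2.ind with | h u v =>
  rw [Sym2.map_mk, SimpleGraph.mem_edgeSet]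
  exact hadj g u v he

instance svAct : MulAction π (SV hadj) where
  smul g x := match x with
    | .ver v => .ver (g • v)
    | .mid e => .mid ⟨e.1.map (fun v => g • v), edge_map hadj g e.2⟩
  one_smul x := by
    cases x with
    | ver v => exact congrArg SV.ver (one_smul π v)
    | mid e =>
      apply congrArg SV.mid
      apply Subtype.ext
      change e.1.map (fun v => (1 : π) • v) = e.1
      have h : (fun v : V => (1 : π) • v) = id := funext fun v => one_smul π v
      rw [h, Sym2.map_id]
      rfl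
  mul_smul g h x := by
    cases x with
    | ver v => exact congrArg SV.ver (mul_smul g h v)
    | mid e =>
      apply congrArg SV.mid
      apply Subtype.ext
      change e.1.map (fun v => (g * h) • v) = (e.1.map (fun v => h • v)).map (fun v => g • v)
      rw [Sym2.map_map]
      congr 1
      funext v
      exact mul_smul g h v

theorem SD.ext' {x y : SD hadj} (h1 : x.a = y.a) (h2 : x.b = y.b) : x = y := by
  cases x; cases y; cases h1; cases h2; rfl

instance sdAct : MulAction π (SD hadj) where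
  smul g d := ⟨g • d.a, g • d.b, hadj g _ _ d.adj⟩
  one_smul d := SD.ext' hadj (one_smul π d.a) (one_smul π d.b)
  mul_smul g h d := SD.ext' hadj (mul_smul g h d.a) (mul_smul g h d.b)

/-- The subdivision. -/
def subQ : Edges (SV hadj) (SD hadj) where
  s d := .ver d.a
  t d := .mid ⟨s(d.a, d.b), d.adj⟩

theorem subQ_eq : EqE π (subQ hadj) where
  s_smul g d := rfl
  t_smul g d := rfl

theorem del_dI (d : SD hadj) : (subQ hadj).del (single d 1) =
    single (SV.mid ⟨s(d.a, d.b), d.adj⟩) 1 - single (SV.ver d.a) 1 := by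
  rw [Edges.del_single]
  rfl

theorem exists_path_sub (hc : Tr.Connected) (v₀ : V) (x : SV hadj) :
    ∃ p, (subQ hadj).del p = single x 1 - single (SV.ver v₀) 1 := by
  have hv : ∀ v : V, ∃ p, (subQ hadj).del p = single (SV.ver v) 1 - single (SV.ver v₀) 1 := by
    intro v
    obtain ⟨w⟩ := hc.preconnected v v₀
    induction w with
    | nil => exact ⟨0, by rw [map_zero, sub_self]⟩
    | @cons a b c h w ih =>
      obtain ⟨p, hp⟩ := ih
      refine ⟨p + single ⟨b, a, h.symm⟩ 1 - single ⟨a, b, h⟩ 1, ?_⟩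
      rw [map_sub, map_add, hp, del_dI, del_dI]
      have e : (⟨s(b, a), h.symm⟩ : Tr.edgeSet) = ⟨s(a, b), h⟩ := Subtype.ext (Sym2.eq_swap)
      change _ + (single (SV.mid ⟨s(b, a), h.symm⟩) 1 - single (SV.ver b) 1) -
        (single (SV.mid ⟨s(a, b), h⟩) 1 - single (SV.ver a) 1) = _
      rw [e]
      abel
  cases x with
  | ver v => exact hv v
  | mid e =>
    obtain ⟨e, he⟩ := e
    induction e using Sym2.ind with | h u v =>
    obtain ⟨p, hp⟩ := hv u
    refine ⟨p + single ⟨u, v, he⟩ 1, ?_⟩
    rw [map_add, hp, del_dI]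
    change _ + (single (SV.mid ⟨s(u, v), he⟩) 1 - single (SV.ver u) 1) = _
    abel

open Classical in
theorem coeff_sub (ha : Tr.IsAcyclic) (d : SD hadj) :
    ∃ L : (SV hadj →₀ ℤ) →ₗ[ℤ] ℤ, ∀ p, L ((subQ hadj).del p) = - p d := by
  have hb : Tr.IsBridge s(d.a, d.b) := SimpleGraph.isAcyclic_iff_forall_isBridge.mp ha d.adj
  let G' := Tr.deleteEdges {s(d.a, d.b)}
  have hb' : ¬ G'.Reachable d.a d.b := hb
  let χ : SV hadj → ℤ := fun x => match x with
    | .ver v => if G'.Reachable d.a v then 1 else 0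
    | .mid e => if e.1 = s(d.a, d.b) then 0 else if ∃ v ∈ e.1, G'.Reachable d.a v then 1 else 0
  refine ⟨Finsupp.linearCombination ℤ χ, fun p => ?_⟩
  apply int_ind (fun p => Finsupp.linearCombination ℤ χ ((subQ hadj).del p))
    (fun p => - p d) (fun a b => by simp only [map_add]) (fun a b => by
      simp only [Finsupp.add_apply]; ring)
  intro d'
  simp only [del_dI, map_sub, Finsupp.linearCombination_single, one_smul]
  have hχe : χ (.mid ⟨s(d'.a, d'.b), d'.adj⟩) = if s(d'.a, d'.b) = s(d.a, d.b) then 0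
    else if ∃ v ∈ s(d'.a, d'.b), G'.Reachable d.a v then 1 else 0 := rfl
  have hχv : χ (.ver d'.a) = if G'.Reachable d.a d'.a then 1 else 0 := rfl
  rw [hχe, hχv]
  by_cases h : s(d'.a, d'.b) = s(d.a, d.b)
  · rw [if_pos h]
    rcases Sym2.eq_iff.mp h with ⟨h1, h2⟩ | ⟨h1, h2⟩
    · have e3 : d' = d := SD.ext' hadj h1 h2
      rw [e3, if_pos (SimpleGraph.Reachable.refl _), Finsupp.single_eq_same]
      norm_num
    · have hne : d' ≠ d := by
        intro e
        rw [e] at h1
        exact d.adj.ne h1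
      rw [h1, if_neg hb', Finsupp.single_eq_of_ne hne.symm]
      norm_num
  · rw [if_neg h]
    have hne : d' ≠ d := by
      intro e
      exact h (by rw [e])
    rw [Finsupp.single_eq_of_ne hne.symm]
    have hadj' : G'.Adj d'.a d'.b := by
      rw [SimpleGraph.deleteEdges_adj]
      exact ⟨d'.adj, h⟩
    have h4 : (∃ v ∈ s(d'.a, d'.b), G'.Reachable d.a v) ↔ G'.Reachable d.a d'.a := by
      constructor
      · rintro ⟨v, hv, hr⟩
        rcases Sym2.mem_iff.mp hv with rfl | rfl
        · exact hr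
        · exact hr.trans hadj'.symm.reachable
      · intro hr
        exact ⟨d'.a, Sym2.mem_mk_left _ _, hr⟩
    by_cases h6 : G'.Reachable d.a d'.a
    · rw [if_pos (h4.mpr h6), if_pos h6]; norm_num
    · rw [if_neg (fun h => h6 (h4.mp h)), if_neg h6]; norm_num

theorem tree_sub (ht : Tr.IsTree) (v₀ : V) (x : SV hadj) :
    ∃! p, (subQ hadj).del p = single x 1 - single (SV.ver v₀) 1 := by
  obtain ⟨p, hp⟩ := exists_path_sub hadj ht.connected v₀ x
  refine ⟨p, hp, fun p' hp' => ?_⟩
  have h0 : (subQ hadj).del (p' - p) = 0 := by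
    have hp1 : (subQ hadj).del p' = single x 1 - single (SV.ver v₀) 1 := hp'
    rw [map_sub, hp1, hp, sub_self]
  have h1 : p' - p = 0 := by
    apply Finsupp.ext
    intro d
    obtain ⟨L, hL⟩ := coeff_sub hadj ht.isAcyclic d
    have h2 := hL (p' - p)
    rw [h0, map_zero] at h2
    exact neg_eq_zero.mp h2.symm
  exact sub_eq_zero.mp h1

theorem stab_sub (hfin : ∀ v : V, (MulAction.stabilizer π v : Set π).Finite) (x : SV hadj) :
    (MulAction.stabilizer π x : Set π).Finite := by
  have hco : ∀ u v : V, {g : π | g • u = v}.Finite := by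
    intro u v
    by_cases h : ∃ g₀ : π, g₀ • u = v
    · obtain ⟨g₀, h0⟩ := h
      apply ((hfin u).image fun g => g₀ * g).subset
      intro g hg
      refine ⟨g₀⁻¹ * g, ?_, mul_inv_cancel_left _ _⟩
      rw [SetLike.mem_coe, MulAction.mem_stabilizer_iff, mul_smul, show g • u = v from hg, ← h0,
        inv_smul_smul]
    · apply Set.finite_empty.subset
      intro g hg
      exact (h ⟨g, hg⟩).elim
  cases x with
  | ver v =>
    apply (hfin v).subset
    intro g hg
    have h1 : g • (SV.ver v : SV hadj) = SV.ver v := hg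
    exact SV.ver.inj h1
  | mid e =>
    obtain ⟨e, he⟩ := e
    induction e using Sym2.ind with | h u v =>
    apply ((hco u u).union (hco u v)).subset
    intro g hg
    have h1 : g • (SV.mid ⟨s(u, v), he⟩ : SV hadj) = SV.mid ⟨s(u, v), he⟩ := hg
    have h2 : (s(u, v) : Sym2 V).map (fun v => g • v) = s(u, v) :=
      congrArg Subtype.val (SV.mid.inj h1)
    rw [Sym2.map_mk, Sym2.eq_iff] at h2
    rcases h2 with h2 | h2
    · exact Or.inl h2.1
    · exact Or.inr h2.1

variable {B : Type} (d : B → ℕ) {F : GrpCat.{0} ⥤ ModuleCat.{0} ℚ} (α : ∀ b : B, hq (d b) ⟶ F)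

include hadj in
/-- **Injectivity for `π / [R, R]`, `π` acting on a tree.** -/
theorem ker_tree (hE : PW.HasPT F) (ht : Tr.IsTree)
    (hfin : ∀ v : V, (MulAction.stabilizer π v : Set π).Finite) (R : Subgroup π) [R.Normal]
    (hZ : ∀ n, LinearMap.ker (tb d α (Zn n)) = ⊥) :
    LinearMap.ker (tb d α (π ⧸ ⁅R, R⁆)) = ⊥ := by
  obtain ⟨v₀⟩ := ht.connected.nonempty
  exact ker_quo (v₀ := SV.ver v₀) (subQ_eq hadj) (tree_sub hadj ht v₀) R d α hE
    (stab_sub hadj hfin) hZ

end Simple

end Pool.Agent.V11187.MG
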