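import Pool.Agent.V11187.MG.Ker

/-!
Groups acting on trees: for a group `π` which acts on a tree and a normal subgroup `R` of `π`, the
quotient of `π` by the elements of `R` whose `1`-chain in the quotient graph is zero is the group of
the pairs `(m, γ)` with `∂ m = γ v₀ - v₀`, and the elements of `R` whose chain is zero have a
power in the commutator subgroup of `R`.
-/

namespace Pool.Agent.V11187.MG

open Finsupp Pool.Agent.Y483

section Orbits

variable {π : Type} [Group π] (R : Subgroup π) (X : Type) [MulAction π X]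

/-- The set of the orbits of `R`. -/
def Orb : Type := Quotient (MulAction.orbitRel R X)

variable {R X}

/-- The orbit of an element. -/
def orb (R : Subgroup π) (x : X) : Orb R X := Quotient.mk (MulAction.orbitRel R X) x

theorem orb_eq {x x' : X} : orb R x = orb R x' ↔ ∃ r ∈ R, r • x' = x := by
  have h0 : orb R x = orb R x' ↔ x ∈ MulAction.orbit R x' :=
    Quotient.eq (r := MulAction.orbitRel R X)
  rw [h0]
  constructor
  · rintro ⟨r, hr⟩
    exact ⟨r.1, r.2, hr⟩
  · rintro ⟨r, hr, h⟩
    exact ⟨⟨r, hr⟩, h⟩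

theorem orb_surj (o : Orb R X) : ∃ x, orb R x = o := Quotient.exists_rep o

variable [hR : R.Normal]

theorem orb_smul_aux (g g' : π) (x x' : X) (hg : g⁻¹ * g' ∈ R) (hx : orb R x = orb R x') :
    orb R (g • x) = orb R (g' • x') := by
  obtain ⟨r, hr, h⟩ := orb_eq.mp hx
  rw [orb_eq]
  refine ⟨g * (r * (g⁻¹ * g')⁻¹) * g⁻¹, hR.conj_mem _ (R.mul_mem hr (R.inv_mem hg)) g, ?_⟩
  rw [← h, smul_smul, smul_smul]
  congr 1
  group

instance orbAct : MulAction (π ⧸ R) (Orb R X) where
  smul y o := Quotient.liftOn₂ (s₁ := QuotientGroup.leftRel R) (s₂ := MulAction.orbitRel R X) y o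
    (fun g x => orb R (g • x)) (fun g x g' x' hg hx => by
      apply orb_smul_aux g g' x x'
      · exact QuotientGroup.leftRel_apply.mp hg
      · exact Quotient.sound hx)
  one_smul o := by
    obtain ⟨x, rfl⟩ := orb_surj o
    change orb R ((1 : π) • x) = orb R x
    rw [one_smul]
  mul_smul y y' o := by
    obtain ⟨x, rfl⟩ := orb_surj o
    induction y using QuotientGroup.induction_on with | H g =>
    induction y' using QuotientGroup.induction_on with | H g' =>
    change orb R ((g * g') • x) = orb R (g • g' • x)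
    rw [mul_smul]

theorem mk_smul_orb (g : π) (x : X) : (QuotientGroup.mk g : π ⧸ R) • orb R x = orb R (g • x) := rfl

theorem stab_orb_finite (x : X) (h : (MulAction.stabilizer π x : Set π).Finite) :
    (MulAction.stabilizer (π ⧸ R) (orb R x) : Set (π ⧸ R)).Finite := by
  apply (h.image fun g => (QuotientGroup.mk g : π ⧸ R)).subset
  intro y hy
  induction y using QuotientGroup.induction_on with | H g =>
  rw [SetLike.mem_coe, MulAction.mem_stabilizer_iff, mk_smul_orb, orb_eq] at hy
  obtain ⟨r, hr, hrx⟩ := hy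
  refine ⟨r⁻¹ * g, ?_, ?_⟩
  · rw [SetLike.mem_coe, MulAction.mem_stabilizer_iff, mul_smul, ← hrx, inv_smul_smul]
  · apply QuotientGroup.eq.mpr
    have e : (r⁻¹ * g)⁻¹ * g = g⁻¹ * r * g⁻¹⁻¹ := by group
    rw [e]
    exact hR.conj_mem r hr g⁻¹

end Orbits

section Tree

variable {π V E : Type} [Group π] [MulAction π V] [MulAction π E] {Q : Edges V E} {v₀ : V}
  (hQ : EqE π Q) (hT : ∀ v, ∃! p, Q.del p = single v 1 - single v₀ 1)
  (R : Subgroup π) [hR : R.Normal]

/-- The quotient graph. -/
def quoQ (Q : Edges V E) (R : Subgroup π) (hQ : EqE π Q) : Edges (Orb R V) (Orb R E) where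
  s := Quotient.lift (fun e => orb R (Q.s e)) (fun e e' h => by
    obtain ⟨r, hr, h2⟩ := orb_eq.mp (Quotient.sound h : orb R e = orb R e')
    rw [orb_eq]
    exact ⟨r, hr, by rw [← hQ.s_smul, h2]⟩)
  t := Quotient.lift (fun e => orb R (Q.t e)) (fun e e' h => by
    obtain ⟨r, hr, h2⟩ := orb_eq.mp (Quotient.sound h : orb R e = orb R e')
    rw [orb_eq]
    exact ⟨r, hr, by rw [← hQ.t_smul, h2]⟩)

theorem quoQ_s (e : E) : (quoQ Q R hQ).s (orb R e) = orb R (Q.s e) := rfl

theorem quoQ_t (e : E) : (quoQ Q R hQ).t (orb R e) = orb R (Q.t e) := rfl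

theorem quoQ_eq : EqE (π ⧸ R) (quoQ Q R hQ) where
  s_smul y o := by
    obtain ⟨e, rfl⟩ := orb_surj o
    induction y using QuotientGroup.induction_on with | H g =>
    rw [mk_smul_orb, quoQ_s, quoQ_s, mk_smul_orb, hQ.s_smul]
  t_smul y o := by
    obtain ⟨e, rfl⟩ := orb_surj o
    induction y using QuotientGroup.induction_on with | H g =>
    rw [mk_smul_orb, quoQ_t, quoQ_t, mk_smul_orb, hQ.t_smul]

/-- The projection of `1`-chains. -/
noncomputable def prE : (E →₀ ℤ) →ₗ[ℤ] (Orb R E →₀ ℤ) := Finsupp.lmapDomain ℤ ℤ (orb R)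

/-- The projection of `0`-chains. -/
noncomputable def prV : (V →₀ ℤ) →ₗ[ℤ] (Orb R V →₀ ℤ) := Finsupp.lmapDomain ℤ ℤ (orb R)

theorem prE_single (e : E) (n : ℤ) : prE R (single e n) = single (orb R e) n := by simp [prE]

theorem prV_single (v : V) (n : ℤ) : prV R (single v n) = single (orb R v) n := by simp [prV]

theorem del_prE (p : E →₀ ℤ) : (quoQ Q R hQ).del (prE R p) = prV R (Q.del p) := by
  apply int_ind (fun p => (quoQ Q R hQ).del (prE R p)) (fun p => prV R (Q.del p))
    (fun a b => by simp only [map_add]) (fun a b => by simp only [map_add])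
  intro e
  simp only [prE_single, Edges.del_single, map_sub, prV_single, quoQ_s, quoQ_t]

theorem prE_gE (g : π) (p : E →₀ ℤ) :
    prE R (gE g p) = gE (QuotientGroup.mk g : π ⧸ R) (prE R p) := by
  apply int_ind (fun p => prE R (gE g p)) (fun p => gE (QuotientGroup.mk g : π ⧸ R) (prE R p))
    (fun a b => by simp only [map_add]) (fun a b => by simp only [map_add])
  intro e
  simp only [gE_single, prE_single, mk_smul_orb]

/-- The chain from the base point to `v`. -/
noncomputable def path (v : V) : E →₀ ℤ := (hT v).choose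

theorem del_path (v : V) : Q.del (path hT v) = single v 1 - single v₀ 1 :=
  (hT v).choose_spec.1

include hT in
theorem del_inj (p p' : E →₀ ℤ) (h : Q.del p = Q.del p') : p = p' := by
  obtain ⟨p₀, hp₀, hu⟩ := hT v₀
  have h1 : p - p' = 0 := by
    have h2 := hu (p - p') (by
      change Q.del (p - p') = _
      rw [map_sub, h, sub_self, sub_self])
    have h3 := hu 0 (by
      change Q.del 0 = _
      rw [map_zero, sub_self])
    rw [h2, h3]
  exact sub_eq_zero.mp h1

/-- The chain from the base point to its image. -/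
noncomputable def cT (g : π) : E →₀ ℤ := path hT (g • v₀)

include hQ in
theorem path_smul (g : π) (v : V) : path hT (g • v) = cT hT g + gE g (path hT v) := by
  apply del_inj hT
  rw [map_add, del_path, cT, del_path, del_gE hQ, del_path, map_sub, gV_single, gV_single]
  abel

include hQ in
theorem cT_mul (g h : π) : cT hT (g * h) = cT hT g + gE g (cT hT h) := by
  unfold cT
  rw [mul_smul, path_smul hQ hT]
  rfl

/-- The chain in the quotient graph. -/
noncomputable def cB (g : π) : Orb R E →₀ ℤ := prE R (cT hT g)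

include hQ in
theorem cB_mul (g h : π) :
    cB hT R (g * h) = cB hT R g + gE (QuotientGroup.mk g : π ⧸ R) (cB hT R h) := by
  unfold cB
  rw [cT_mul hQ hT, map_add, prE_gE]

theorem del_cB (g : π) : (quoQ Q R hQ).del (cB hT R g) =
    single ((QuotientGroup.mk g : π ⧸ R) • orb R v₀) 1 - single (orb R v₀) 1 := by
  unfold cB
  rw [del_prE, cT, del_path, map_sub, prV_single, prV_single, mk_smul_orb]

include hQ in
theorem cB_one : cB hT R 1 = 0 := by
  have h := cB_mul hQ hT R 1 1
  rw [mul_one] at h
  have e : (QuotientGroup.mk (1 : π) : π ⧸ R) = 1 := rfl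
  rw [e, gE_one] at h
  exact left_eq_add.mp h

include hQ in
theorem cB_mul_R (r : π) (hr : r ∈ R) (h : π) : cB hT R (r * h) = cB hT R r + cB hT R h := by
  rw [cB_mul hQ hT, (QuotientGroup.eq_one_iff r).mpr hr, gE_one]

/-- The chain as a homomorphism on `R`. -/
noncomputable def cR : R →* Multiplicative (Orb R E →₀ ℤ) where
  toFun r := Multiplicative.ofAdd (cB hT R r.1)
  map_one' := by
    change Multiplicative.ofAdd (cB hT R 1) = 1
    rw [cB_one hQ hT]; rfl
  map_mul' r r' := by
    change Multiplicative.ofAdd (cB hT R (r.1 * r'.1)) = _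
    rw [cB_mul_R hQ hT R r.1 r.2]; rfl

/-- The homomorphism to the semidirect product. -/
noncomputable def muT : π →* WE (π ⧸ R) (Orb R E) where
  toFun g := ⟨Multiplicative.ofAdd (cB hT R g), QuotientGroup.mk g⟩
  map_one' := by
    apply SemidirectProduct.ext
    · change Multiplicative.ofAdd (cB hT R 1) = 1
      rw [cB_one hQ hT]; rfl
    · rfl
  map_mul' g h := by
    apply SemidirectProduct.ext
    · change Multiplicative.ofAdd (cB hT R (g * h)) = _
      rw [cB_mul hQ hT]; rfl
    · rfl

/-- Every cycle of the quotient graph is the chain of an element of `R`. -/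
theorem exists_cB (m : Orb R E →₀ ℤ) (hm : (quoQ Q R hQ).del m = 0) :
    ∃ r : R, cB hT R r.1 = m := by
  -- lift the cycle
  obtain ⟨p, rfl⟩ : ∃ p, prE R p = m := by
    obtain ⟨f, hf⟩ : ∃ f : Orb R E → E, ∀ o, orb R (f o) = o :=
      ⟨fun o => (orb_surj o).choose, fun o => (orb_surj o).choose_spec⟩
    refine ⟨Finsupp.mapDomain f m, ?_⟩
    unfold prE
    rw [Finsupp.lmapDomain_apply, ← Finsupp.mapDomain_comp]
    have e : orb R ∘ f = id := funext hf
    rw [e, Finsupp.mapDomain_id]
  rw [del_prE] at hm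
  -- representatives of the vertices
  obtain ⟨f, hf⟩ : ∃ f : Orb R V → V, ∀ o, orb R (f o) = o :=
    ⟨fun o => (orb_surj o).choose, fun o => (orb_surj o).choose_spec⟩
  have ha : ∀ v : V, ∃ r : R, r.1 • f (orb R v) = v := by
    intro v
    obtain ⟨r, hr, h⟩ := orb_eq.mp (hf (orb R v)).symm
    exact ⟨⟨r, hr⟩, h⟩
  choose a ha using ha
  -- the chains of the paths, extended linearly
  let F : (V →₀ ℤ) →ₗ[ℤ] (Orb R E →₀ ℤ) :=
    Finsupp.linearCombination ℤ (fun v => prE R (path hT v))
  have hF : ∀ v, F (single v 1) = prE R (path hT v) := by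
    intro v
    simp [F]
  have hFdel : ∀ p, F (Q.del p) = prE R p := by
    intro p
    let P : (V →₀ ℤ) →ₗ[ℤ] (E →₀ ℤ) := Finsupp.linearCombination ℤ (path hT)
    have hP : ∀ u, Q.del (P u) = u - (degZ V u) • single v₀ (1 : ℤ) := by
      intro u
      apply int_ind (fun u => Q.del (P u)) (fun u => u - (degZ V u) • single v₀ (1 : ℤ))
      · intro a b; simp only [map_add]
      · intro a b; simp only [map_add]; rw [add_smul]; abel
      · intro v
        simp only [P, Finsupp.linearCombination_single, one_smul, del_path, degZ_single]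
    have h1 : P (Q.del p) = p := by
      apply del_inj hT
      rw [hP, degZ_del, zero_smul, sub_zero]
    have h2 : ∀ u, F u = prE R (P u) := by
      intro u
      apply int_ind (fun u => F u) (fun u => prE R (P u))
        (fun a b => by simp only [map_add]) (fun a b => by simp only [map_add])
      intro v
      simp [F, P]
    rw [h2, h1]
  have hFa : ∀ v, F (single v 1) = cB hT R (a v).1 + F (single (f (orb R v)) 1) := by
    intro v
    rw [hF, hF]
    conv_lhs => rw [← ha v]
    rw [path_smul hQ hT, map_add, prE_gE, (QuotientGroup.eq_one_iff (a v).1).mpr (a v).2, gE_one]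
    rfl
  let H : (Orb R V →₀ ℤ) →ₗ[ℤ] (Orb R E →₀ ℤ) :=
    Finsupp.linearCombination ℤ (fun o => F (single (f o) 1))
  have hH : ∀ u, ∃ r : R, F u = cB hT R r.1 + H (prV R u) := by
    intro u
    induction u using Finsupp.induction_linear with
    | zero => exact ⟨1, by rw [map_zero, map_zero, map_zero, add_zero]; exact (cB_one hQ hT R).symm⟩
    | add x y hx hy =>
      obtain ⟨r, hr⟩ := hx
      obtain ⟨r', hr'⟩ := hy
      refine ⟨r * r', ?_⟩
      rw [map_add, hr, hr', map_add, map_add, Subgroup.coe_mul, cB_mul_R hQ hT R r.1 r.2]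
      abel
    | single v n =>
      refine ⟨(a v) ^ n, ?_⟩
      have e1 : (single v n : V →₀ ℤ) = n • single v 1 := by simp
      have e2 : cB hT R ((a v) ^ n : R).1 = n • cB hT R (a v).1 := by
        have h1 := map_zpow (cR hQ hT R) (a v) n
        exact h1
      rw [e1, map_zsmul, map_zsmul, map_zsmul, hFa, e2, smul_add, prV_single]
      congr 2
      simp [H]
  obtain ⟨r, hr⟩ := hH (Q.del p)
  refine ⟨r, ?_⟩
  rw [hFdel, hm, map_zero, add_zero] at hr
  exact hr.symm

end Tree

end Pool.Agent.V11187.MG
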